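import Pool.Agent.LT93.BrC1

/-!
# [BrBall] Every continuous map from `ℝⁿ` to the closed unit ball has a fixed point

`h` continuous with `‖h x‖ ≤ 1` for all `x` (globally).  Suppose it has no fixed point in the closed unit ball
`B`; then `‖h x - x‖ ≥ 3 ε > 0` on `B` by compactness.  `Continuous.exists_contDiff_approx` (Mathlib, file
`Geometry/Manifold/SmoothApprox`) gives a `C¹` map `p` with
`‖p x - h x‖ < ε` everywhere; `q = (1 + ε)⁻¹ • p` maps `B` into `B`, has `‖q x - h x‖ ≤ 2 ε`, so no fixed point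
in `B`; contradiction to `brouwer_C1`.
-/

namespace LT93

open Metric

theorem brouwer_ball {n : ℕ} {h : EuclideanSpace ℝ (Fin n) → EuclideanSpace ℝ (Fin n)}
    (hh : Continuous h) (hB : ∀ x, ‖h x‖ ≤ 1) : ∃ x, h x = x := by
  by_contra hcon
  push Not at hcon
  have hcpt : IsCompact (closedBall (0 : EuclideanSpace ℝ (Fin n)) 1) :=
    isCompact_closedBall 0 1
  have hne : (closedBall (0 : EuclideanSpace ℝ (Fin n)) 1).Nonempty :=
    ⟨0, mem_closedBall_self zero_le_one⟩
  obtain ⟨x0, -, hx0⟩ := hcpt.exists_isMinOn hne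
    (f := fun x => ‖h x - x‖) (by fun_prop)
  set m : ℝ := ‖h x0 - x0‖ with hm
  have hm0 : 0 < m := norm_pos_iff.2 (sub_ne_zero.2 (hcon x0))
  set ε : ℝ := m / 3 with hε
  have hε0 : 0 < ε := by positivity
  obtain ⟨p, hp1, hp2, -⟩ := hh.exists_contDiff_approx 1 (ε := fun _ => ε)
    continuous_const (fun _ => hε0)
  have hq : ContDiff ℝ 1 (fun x => (1 + ε)⁻¹ • p x) := by
    have hp1' : ContDiff ℝ 1 p := by exact_mod_cast hp1
    exact hp1'.const_smul _
  have h1ε : 0 < 1 + ε := by positivity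
  obtain ⟨x, hx, hxq⟩ := brouwer_C1 hq (by
    intro x _
    rw [mem_closedBall_zero_iff, norm_smul, norm_inv, Real.norm_of_nonneg h1ε.le,
      inv_mul_le_iff₀ h1ε, mul_one]
    have h1 := hp2 x
    rw [dist_eq_norm] at h1
    have h2 := norm_add_le (p x - h x) (h x)
    rw [sub_add_cancel] at h2
    have h3 := hB x
    linarith)
  have h1 : p x - x = ε • x := by
    have h2 : p x = (1 + ε) • x := by
      have h6 := congrArg (fun y => (1 + ε) • y) hxq
      simp only [smul_smul] at h6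
      rwa [mul_inv_cancel₀ h1ε.ne', one_smul] at h6
    rw [h2, add_smul, one_smul, add_sub_cancel_left]
  have h2 : ‖p x - x‖ ≤ ε := by
    rw [h1, norm_smul, Real.norm_of_nonneg hε0.le]
    have h3 : ‖x‖ ≤ 1 := mem_closedBall_zero_iff.1 hx
    nlinarith
  have h3 := hp2 x
  rw [dist_eq_norm, norm_sub_rev] at h3
  have h4 : ‖h x - x‖ ≤ ‖h x - p x‖ + ‖p x - x‖ := by
    have h5 := norm_add_le (h x - p x) (p x - x)
    rwa [sub_add_sub_cancel] at h5
  have h5 : m ≤ ‖h x - x‖ := hx0 hx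
  linarith

end LT93
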