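import Pool.Agent.LT93.Ret

/-!
# [BrC1] The Brouwer theorem for `C¹` self maps of the unit ball

Suppose `h` (`C¹` on the whole space) maps the closed unit ball `B` into itself without fixed point in `B`.
Put `a x = ‖x - h x‖²`, `b x = ⟪x, x - h x⟫`, `c x = ‖x‖² - 1`, `D x = b x ^ 2 - a x * c x`.
On `B`: `a > 0`; `c ≤ 0`; if `c < 0` then `D > 0`; if `c = 0` then `b = 1 - ⟪x, h x⟫ ≥ 0` with equality only if `h x = x`
(`‖h x‖ ≤ 1`, equality in Cauchy-Schwarz: `‖x - h x‖² = 2 - 2 + ... ≤ 2 - 2 ⟪x, h x⟫`), so `b > 0`, `D > 0`.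
`U = {x | 0 < a x ∧ 0 < D x}` is open and contains `B`.  On `U` put
`r x = x + ((- b x + √(D x)) / a x) • (x - h x)`; it is `C¹` on `U` (`ContDiffOn`, `Real.sqrt` is smooth away from `0`),
`‖r x‖ = 1` on `U` (root of the quadratic `a λ² + 2 b λ + c = 0`), and `r x = x` if `‖x‖ = 1` (there `b > 0`, `c = 0`, `√(b²) = b`).
This contradicts `no_retraction`.  The case `n = 0` is trivial (one point).
-/

namespace LT93

open Metric

theorem brouwer_C1 {n : ℕ} {h : EuclideanSpace ℝ (Fin n) → EuclideanSpace ℝ (Fin n)}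
    (hh : ContDiff ℝ 1 h) (hB : Set.MapsTo h (closedBall 0 1) (closedBall 0 1)) :
    ∃ x ∈ closedBall (0 : EuclideanSpace ℝ (Fin n)) 1, h x = x := by
  by_contra hne
  push Not at hne
  rcases Nat.eq_zero_or_pos n with hn | hn
  · subst hn
    exact hne 0 (by simp) (Subsingleton.elim _ _)
  set g : EuclideanSpace ℝ (Fin n) → EuclideanSpace ℝ (Fin n) := fun x => x - h x with hg
  have hgC : ContDiff ℝ 1 g := contDiff_id.sub hh
  set a : EuclideanSpace ℝ (Fin n) → ℝ := fun x => inner ℝ (g x) (g x) with ha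
  set b : EuclideanSpace ℝ (Fin n) → ℝ := fun x => inner ℝ x (g x) with hb
  set c : EuclideanSpace ℝ (Fin n) → ℝ := fun x => inner ℝ x x - 1 with hc
  set D : EuclideanSpace ℝ (Fin n) → ℝ := fun x => b x ^ 2 - a x * c x with hD
  have haC : ContDiff ℝ 1 a := hgC.inner ℝ hgC
  have hbC : ContDiff ℝ 1 b := contDiff_id.inner ℝ hgC
  have hcC : ContDiff ℝ 1 c := (contDiff_id.inner ℝ contDiff_id).sub contDiff_const
  have hDC : ContDiff ℝ 1 D := (hbC.pow 2).sub (haC.mul hcC)
  set U : Set (EuclideanSpace ℝ (Fin n)) := {x | 0 < a x ∧ 0 < D x} with hUdef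
  have hU : IsOpen U :=
    (isOpen_lt continuous_const haC.continuous).inter (isOpen_lt continuous_const hDC.continuous)
  have hle : ∀ x ∈ closedBall (0 : EuclideanSpace ℝ (Fin n)) 1, ‖x‖ ≤ 1 := fun x hx => by
    simpa using hx
  have ha0 : ∀ x ∈ closedBall (0 : EuclideanSpace ℝ (Fin n)) 1, 0 < a x := by
    intro x hx
    have h1 : g x ≠ 0 := fun h0 => hne x hx (by rw [hg] at h0; exact (sub_eq_zero.1 h0).symm)
    have : 0 < ‖g x‖ := norm_pos_iff.2 h1
    simp only [ha, real_inner_self_eq_norm_sq]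
    positivity
  have hbs : ∀ x : EuclideanSpace ℝ (Fin n), ‖x‖ = 1 → a x ≤ 2 * b x := by
    intro x hx
    have hxB : x ∈ closedBall (0 : EuclideanSpace ℝ (Fin n)) 1 := by simp [hx]
    have h1 : ‖h x‖ ≤ 1 := hle _ (hB hxB)
    have h2 : a x = 1 - 2 * inner ℝ x (h x) + ‖h x‖ ^ 2 := by
      simp only [ha, hg, real_inner_self_eq_norm_sq]
      rw [@norm_sub_sq_real]
      rw [hx]; ring
    have h3 : b x = 1 - inner ℝ x (h x) := by
      simp only [hb, hg, inner_sub_right, real_inner_self_eq_norm_sq]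
      rw [hx]; ring
    have h4 : ‖h x‖ ^ 2 ≤ 1 := by
      have := norm_nonneg (h x)
      nlinarith
    rw [h2, h3]; linarith
  have hBU : closedBall 0 1 ⊆ U := by
    intro x hx
    refine ⟨ha0 x hx, ?_⟩
    have hapos := ha0 x hx
    rcases (hle x hx).lt_or_eq with h1 | h1
    · have hcneg : c x < 0 := by
        simp only [hc, real_inner_self_eq_norm_sq]
        have := norm_nonneg x
        nlinarith
      simp only [hD]
      nlinarith [sq_nonneg (b x), mul_pos hapos (neg_pos.2 hcneg)]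
    · have hc0 : c x = 0 := by
        simp only [hc, real_inner_self_eq_norm_sq, h1]; norm_num
      have hb0 : 0 < b x := by have := hbs x h1; linarith
      simp only [hD, hc0]
      have := pow_pos hb0 2
      linarith
  set r : EuclideanSpace ℝ (Fin n) → EuclideanSpace ℝ (Fin n) :=
    fun x => x + ((- b x + √(D x)) / a x) • g x with hr
  have hrC : ContDiffOn ℝ 1 r U := by
    refine contDiffOn_id.add (ContDiffOn.smul (ContDiffOn.div (hbC.neg.contDiffOn.add ?_)
      haC.contDiffOn (fun x hx => hx.1.ne')) hgC.contDiffOn)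
    exact hDC.contDiffOn.sqrt (fun x hx => hx.2.ne')
  have h1 : ∀ x ∈ closedBall (0 : EuclideanSpace ℝ (Fin n)) 1, ‖r x‖ = 1 := by
    intro x hx
    have hxU := hBU hx
    have hapos : 0 < a x := hxU.1
    have hDpos : 0 < D x := hxU.2
    set l : ℝ := (- b x + √(D x)) / a x with hl
    have h3 : ‖r x‖ ^ 2 = (c x + 1) + 2 * l * b x + l ^ 2 * a x := by
      simp only [hr]
      rw [@norm_add_sq_real, ← hl, inner_smul_right, norm_smul, mul_pow, ← real_inner_self_eq_norm_sq x,
        ← real_inner_self_eq_norm_sq (g x), Real.norm_eq_abs, sq_abs]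
      simp only [ha, hb, hc]
      ring
    have h4 : l * a x = - b x + √(D x) := by rw [hl]; field_simp
    have h5 : √(D x) ^ 2 = D x := Real.sq_sqrt hDpos.le
    have h6 : a x * (c x + 2 * l * b x + l ^ 2 * a x) = 0 := by
      have : a x * (c x + 2 * l * b x + l ^ 2 * a x) = a x * c x + 2 * (l * a x) * b x + (l * a x) ^ 2 := by
        ring
      rw [this, h4]
      have h7 : D x = b x ^ 2 - a x * c x := rfl
      nlinarith [h5, h7]
    have h7 : c x + 2 * l * b x + l ^ 2 * a x = 0 := by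
      rcases mul_eq_zero.1 h6 with h | h
      · exact absurd h hapos.ne'
      · exact h
    have h8 : ‖r x‖ ^ 2 = 1 := by rw [h3]; linarith
    have h9 := norm_nonneg (r x)
    nlinarith
  have h2 : ∀ x : EuclideanSpace ℝ (Fin n), ‖x‖ = 1 → r x = x := by
    intro x hx
    have hxB : x ∈ closedBall (0 : EuclideanSpace ℝ (Fin n)) 1 := by simp [hx]
    have hapos := ha0 x hxB
    have hc0 : c x = 0 := by
      simp only [hc, real_inner_self_eq_norm_sq, hx]; norm_num
    have hb0 : 0 < b x := by have := hbs x hx; linarith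
    have hDx : D x = b x ^ 2 := by simp only [hD, hc0]; ring
    simp only [hr, hDx, Real.sqrt_sq hb0.le]
    simp
  exact no_retraction hn hU hBU hrC h1 h2

end LT93
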