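import Pool.Agent.LT93.BrBall

/-!
# [Br] The Brouwer fixed point theorem for compact convex sets

`C` compact convex nonempty, `f` continuous on `C`, `f C ⊆ C`.  Let `P` be the nearest point
projection onto `C` (`exists_norm_eq_iInf_of_complete_convex`, `norm_eq_iInf_iff_real_inner_le_zero`); it is
`1`-Lipschitz, `P x ∈ C` and `P x = x` on `C`.  Choose `R > 0` with `C ⊆ closedBall 0 R` and apply `brouwer_ball` to
`h x = R⁻¹ • f (P (R • x))`: a fixed point `x` of `h` gives `y = R • x = f (P y) ∈ C`, so `P y = y` and `f y = y`.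
-/

namespace LT93

open Metric

theorem brouwer {n : ℕ} {C : Set (EuclideanSpace ℝ (Fin n))} (hC : IsCompact C)
    (hconv : Convex ℝ C) (hne : C.Nonempty)
    {f : EuclideanSpace ℝ (Fin n) → EuclideanSpace ℝ (Fin n)} (hf : ContinuousOn f C)
    (hm : Set.MapsTo f C C) : ∃ x ∈ C, f x = x := by
  -- the nearest point projection
  have hP : ∀ x : EuclideanSpace ℝ (Fin n), ∃ v ∈ C, ∀ w ∈ C,
      inner ℝ (x - v) (w - v) ≤ 0 := by
    intro x
    obtain ⟨v, hv, hv2⟩ := exists_norm_eq_iInf_of_complete_convex hne hC.isComplete hconv x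
    exact ⟨v, hv, (norm_eq_iInf_iff_real_inner_le_zero hconv hv).1 hv2⟩
  choose P hPC hPi using hP
  have hLip : ∀ x y, ‖P x - P y‖ ≤ ‖x - y‖ := by
    intro x y
    have h1 := hPi x (P y) (hPC y)
    have h2 := hPi y (P x) (hPC x)
    have h3 : ‖P x - P y‖ ^ 2 ≤ inner ℝ (x - y) (P x - P y) := by
      have e1 : inner ℝ (x - y) (P x - P y) - ‖P x - P y‖ ^ 2 =
          -(inner ℝ (x - P x) (P y - P x)) - inner ℝ (y - P y) (P x - P y) := by
        rw [← real_inner_self_eq_norm_sq]
        simp only [inner_sub_left, inner_sub_right]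
        ring
      linarith
    have h4 := real_inner_le_norm (x - y) (P x - P y)
    by_contra hcon
    rw [not_le] at hcon
    have h5 := norm_nonneg (x - y)
    nlinarith
  have hPcont : Continuous P := by
    refine LipschitzWith.continuous (K := 1) (LipschitzWith.of_dist_le_mul fun x y => ?_)
    rw [dist_eq_norm, dist_eq_norm, NNReal.coe_one, one_mul]
    exact hLip x y
  have hPid : ∀ x ∈ C, P x = x := by
    intro x hx
    have h1 := hPi x x hx
    rw [real_inner_self_eq_norm_sq] at h1
    have h2 : ‖x - P x‖ = 0 := by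
      have := norm_nonneg (x - P x)
      nlinarith
    exact (sub_eq_zero.1 (norm_eq_zero.1 h2)).symm
  obtain ⟨R, hR⟩ := hC.isBounded.subset_closedBall 0
  set S : ℝ := max R 1 with hS
  have hS0 : 0 < S := lt_of_lt_of_le one_pos (le_max_right _ _)
  have hCS : ∀ x ∈ C, ‖x‖ ≤ S := fun x hx =>
    (mem_closedBall_zero_iff.1 (hR hx)).trans (le_max_left _ _)
  obtain ⟨x, hx⟩ := brouwer_ball (h := fun x => S⁻¹ • f (P (S • x))) (by
    have h1 : Continuous fun x => f (P (S • x)) :=
      hf.comp_continuous (hPcont.comp (continuous_const_smul S)) fun x => hPC _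
    exact h1.const_smul S⁻¹) (by
    intro x
    rw [norm_smul, norm_inv, Real.norm_of_nonneg hS0.le, inv_mul_le_iff₀ hS0, mul_one]
    exact hCS _ (hm (hPC _)))
  have h1 : f (P (S • x)) = S • x := by
    have h2 := congrArg (fun y => S • y) hx
    simp only [smul_smul] at h2
    rwa [mul_inv_cancel₀ hS0.ne', one_smul] at h2
  have h2 : S • x ∈ C := h1 ▸ hm (hPC (S • x))
  refine ⟨S • x, h2, ?_⟩
  rwa [hPid _ h2] at h1

end LT93
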