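import Mathlib

/-! Scarf's combinatorial lemma (an abstract form of Sperner's lemma).
`scarf`: for finitely many linear orders (given by injective rank functions `r i`) on a finite
nonempty set `T` and a colouring `c : T -> I` there is a set `σ` on which `c` is injective, such
that every `y` lies, for some colour `i` of `σ`, below all of `σ` in the order `i`. -/

namespace LT93

open Finset

section Prim

variable {I X : Type*} [Fintype I] [DecidableEq I] [Fintype X] [DecidableEq X]

/-- no `y` is strictly above all the minima of `S` -/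
def Prim (r : I → X → ℤ) (S : Finset X) : Prop := ∀ y : X, ∃ i, ∀ x ∈ S, r i y ≤ r i x

omit [Fintype I] [DecidableEq I] [Fintype X] [DecidableEq X] in
lemma Prim.mono {r : I → X → ℤ} {S S' : Finset X} (h : Prim r S) (hs : S' ⊆ S) : Prim r S' := by
  intro y
  obtain ⟨i, hi⟩ := h y
  exact ⟨i, fun x hx => hi x (hs hx)⟩

open Classical in
/-- an inner door lies in exactly two rooms -/
theorem door_two (r : I → X → ℤ) (hr : ∀ i, Function.Injective (r i)) (D : Finset X)
    (hcard : D.card + 1 = Fintype.card I) (hD : D.Nonempty) (hP : Prim r D)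
    (hZ : ∀ k : I, ∃ y, ∀ l, l ≠ k → ∃ x ∈ D, r l x < r l y) :
    (univ.filter (fun x => x ∉ D ∧ Prim r (insert x D))).card = 2 := by
  have hm : ∀ l, ∃ a ∈ D, ∀ x ∈ D, r l a ≤ r l x := fun l => D.exists_min_image (r l) hD
  choose m hmD hmin using hm
  have hsurj : ∀ x ∈ D, ∃ l, m l = x := by
    intro x hx
    obtain ⟨l, hl⟩ := hP x
    exact ⟨l, hr l (le_antisymm (hmin l x hx) (hl (m l) (hmD l)))⟩
  obtain ⟨i, -, j, -, hij, hmij⟩ := Finset.exists_ne_map_eq_of_card_lt_of_maps_to
    (s := (univ : Finset I)) (t := D) (f := m) (by rw [Finset.card_univ]; omega)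
    (fun l _ => hmD l)
  -- the set `Z k`
  have hz : ∀ k, ∃ z, (∀ l, l ≠ k → r l (m l) < r l z) ∧
      ∀ y, (∀ l, l ≠ k → r l (m l) < r l y) → r k y ≤ r k z := by
    intro k
    obtain ⟨y, hy⟩ := hZ k
    have hne : (univ.filter (fun y => ∀ l, l ≠ k → r l (m l) < r l y)).Nonempty := by
      refine ⟨y, ?_⟩
      simp only [mem_filter, mem_univ, true_and]
      intro l hl
      obtain ⟨x, hx, hxy⟩ := hy l hl
      exact lt_of_le_of_lt (hmin l x hx) hxy
    obtain ⟨z, hz, hzmax⟩ := Finset.exists_max_image _ (r k) hne
    simp only [mem_filter, mem_univ, true_and] at hz hzmax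
    exact ⟨z, hz, hzmax⟩
  choose z hz1 hz2 using hz
  -- no element is above all minima
  have hno : ∀ y, ∃ l, r l y ≤ r l (m l) := by
    intro y
    obtain ⟨l, hl⟩ := hP y
    exact ⟨l, hl _ (hmD l)⟩
  have hZne : z i ≠ z j := by
    intro h
    obtain ⟨l, hl⟩ := hno (z i)
    by_cases hli : l = i
    · have : l ≠ j := by rw [hli]; exact hij
      have h2 := hz1 j l this
      rw [← h] at h2
      omega
    · have h2 := hz1 i l hli
      omega
  have hkey : ∀ k, (k = i ∨ k = j) → z k ∉ D ∧ Prim r (insert (z k) D) := by
    intro k hk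
    constructor
    · intro hzD
      obtain ⟨l, hl⟩ := hsurj _ hzD
      by_cases hlk : l = k
      · -- use the other index
        rcases hk with hk | hk
        · have h2 := hz1 k j (by rw [hk]; exact hij.symm)
          rw [← hl, hlk, hk, hmij] at h2
          exact lt_irrefl _ h2
        · have h2 := hz1 k i (by rw [hk]; exact hij)
          rw [← hl, hlk, hk, ← hmij] at h2
          exact lt_irrefl _ h2
      · have h2 := hz1 k l hlk
        rw [hl] at h2
        exact lt_irrefl _ h2
    · intro y
      by_cases hy : ∀ l, l ≠ k → r l (m l) < r l y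
      · refine ⟨k, ?_⟩
        intro x hx
        rw [mem_insert] at hx
        rcases hx with rfl | hx
        · exact hz2 k y hy
        · obtain ⟨l, hl⟩ := hno y
          have hlk : l = k := by
            by_contra hlk
            have := hy l hlk
            omega
          subst hlk
          exact le_trans hl (hmin _ x hx)
      · push Not at hy
        obtain ⟨l, hlk, hl⟩ := hy
        refine ⟨l, ?_⟩
        intro x hx
        rw [mem_insert] at hx
        rcases hx with rfl | hx
        · exact le_trans hl (hz1 k l hlk).le
        · exact le_trans hl (hmin _ x hx)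
  have hconv : ∀ x, x ∉ D → Prim r (insert x D) → x = z i ∨ x = z j := by
    intro x hxD hx
    have hm' : ∀ l, ∃ a ∈ insert x D, ∀ x' ∈ insert x D, r l a ≤ r l x' :=
      fun l => (insert x D).exists_min_image (r l) (insert_nonempty _ _)
    choose m' hm'D hm'min using hm'
    have hsurj' : ∀ x' ∈ insert x D, ∃ l, m' l = x' := by
      intro x' hx'
      obtain ⟨l, hl⟩ := hx x'
      exact ⟨l, hr l (le_antisymm (hm'min l x' hx') (hl (m' l) (hm'D l)))⟩
    have hinj : Set.InjOn m' (univ : Finset I) := by
      apply Finset.injOn_of_surjOn_of_card_le (t := insert x D) m'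
      · intro l _
        exact hm'D l
      · intro x' hx'
        obtain ⟨l, hl⟩ := hsurj' x' hx'
        exact ⟨l, by simp, hl⟩
      · rw [card_insert_of_notMem hxD, Finset.card_univ]
        omega
    obtain ⟨k, hk⟩ := hsurj' x (mem_insert_self _ _)
    have hml : ∀ l, l ≠ k → m' l = m l := by
      intro l hl
      have hne : m' l ≠ x := by
        intro h
        exact hl (hinj (by simp) (by simp) (h.trans hk.symm))
      have hin : m' l ∈ D := by
        have := hm'D l
        rw [mem_insert] at this
        exact this.resolve_left hne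
      exact hr l (le_antisymm (hm'min l _ (mem_insert_of_mem (hmD l))) (hmin l _ hin))
    have hxZ : ∀ l, l ≠ k → r l (m l) < r l x := by
      intro l hl
      have h1 : r l (m' l) ≤ r l x := hm'min l x (mem_insert_self _ _)
      have hne : m' l ≠ x := by
        intro h
        exact hl (hinj (by simp) (by simp) (h.trans hk.symm))
      rw [hml l hl] at h1 hne
      exact lt_of_le_of_ne h1 (fun h => hne (hr l h))
    have hxmax : ∀ y, (∀ l, l ≠ k → r l (m l) < r l y) → r k y ≤ r k x := by
      intro y hy
      obtain ⟨l, hl⟩ := hx y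
      have hlk : l = k := by
        by_contra hlk
        have h1 := hy l hlk
        have h2 := hl (m l) (mem_insert_of_mem (hmD l))
        omega
      subst hlk
      exact hl x (mem_insert_self _ _)
    have hkij : k = i ∨ k = j := by
      by_contra hcon
      push Not at hcon
      have h1 := hml i (Ne.symm hcon.1)
      have h2 := hml j (Ne.symm hcon.2)
      exact hij (hinj (by simp) (by simp) (by rw [h1, h2, hmij]))
    have hxz : x = z k :=
      hr k (le_antisymm (hz2 k x hxZ) (hxmax (z k) (hz1 k)))
    rcases hkij with h | h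
    · left; rw [hxz, h]
    · right; rw [hxz, h]
  have hset : univ.filter (fun x => x ∉ D ∧ Prim r (insert x D)) = {z i, z j} := by
    ext x
    simp only [mem_filter, mem_univ, true_and, mem_insert, mem_singleton]
    constructor
    · rintro ⟨h1, h2⟩
      exact hconv x h1 h2
    · rintro (rfl | rfl)
      · exact hkey i (Or.inl rfl)
      · exact hkey j (Or.inr rfl)
  rw [hset, card_pair hZne]

open Classical in
/-- the outer door lies in exactly one room -/
theorem door_one (r : I → X → ℤ) (hr : ∀ i, Function.Injective (r i)) (s : I → X)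
    (hlow : ∀ i x, x ≠ s i → r i (s i) < r i x)
    (hhigh : ∀ i j t, i ≠ j → (∀ k, t ≠ s k) → r i t < r i (s j))
    (hT : ∃ t, ∀ k, t ≠ s k) (i0 : I) :
    (univ.filter (fun x => x ∉ (univ.erase i0).image s ∧
      Prim r (insert x ((univ.erase i0).image s)))).card = 1 := by
  obtain ⟨t0, ht0⟩ := hT
  obtain ⟨t, ht, htmax⟩ := Finset.exists_max_image
    (univ.filter (fun t : X => ∀ k, t ≠ s k)) (r i0) ⟨t0, by simpa using ht0⟩
  simp only [mem_filter, mem_univ, true_and] at ht htmax
  rw [card_eq_one]
  refine ⟨t, ?_⟩
  ext x
  simp only [mem_filter, mem_univ, true_and, mem_singleton]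
  constructor
  · rintro ⟨hx1, hx2⟩
    -- every `y` in `T` satisfies `r i0 y ≤ r i0 x`
    have hy : ∀ y, (∀ k, y ≠ s k) → r i0 y ≤ r i0 x := by
      intro y hy
      obtain ⟨i, hi⟩ := hx2 y
      have : i = i0 := by
        by_contra hii
        have h1 := hi (s i) (mem_insert_of_mem (mem_image_of_mem s (mem_erase.2 ⟨hii, mem_univ _⟩)))
        have h2 := hlow i y (hy i)
        omega
      subst this
      exact hi x (mem_insert_self _ _)
    have hxT : ∀ k, x ≠ s k := by
      intro k hk
      by_cases hki : k = i0
      · subst hki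
        have h1 := hy t ht
        have h2 := hlow k t (ht k)
        rw [hk] at h1
        omega
      · apply hx1
        rw [hk]
        exact mem_image_of_mem s (mem_erase.2 ⟨hki, mem_univ _⟩)
    exact hr i0 (le_antisymm (htmax x hxT) (hy t ht))
  · rintro rfl
    constructor
    · intro h
      obtain ⟨k, -, hk⟩ := mem_image.1 h
      exact ht k hk.symm
    · intro y
      by_cases hy : ∀ k, y ≠ s k
      · refine ⟨i0, ?_⟩
        intro x' hx'
        rw [mem_insert] at hx'
        rcases hx' with rfl | hx'
        · exact htmax y hy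
        · obtain ⟨k, hk, rfl⟩ := mem_image.1 hx'
          exact (hhigh i0 k y (mem_erase.1 hk).1.symm hy).le
      · push Not at hy
        obtain ⟨k, rfl⟩ := hy
        refine ⟨k, ?_⟩
        intro x' _
        by_cases h : x' = s k
        · rw [h]
        · exact (hlow k x' h).le

open Classical in
theorem scarf_aux (r : I → X → ℤ) (hr : ∀ i, Function.Injective (r i)) (s : I → X) (c : X → I)
    (hcs : ∀ i, c (s i) = i)
    (hlow : ∀ i x, x ≠ s i → r i (s i) < r i x)
    (hhigh : ∀ i j t, i ≠ j → (∀ k, t ≠ s k) → r i t < r i (s j))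
    (hT : ∃ t, ∀ k, t ≠ s k) (i0 : I) :
    ∃ S : Finset X, S.card = Fintype.card I ∧ Prim r S ∧ S.image c = univ := by
  by_contra hcon
  push Not at hcon
  have hsinj : Function.Injective s := by
    intro a b hab
    have := congrArg c hab
    rwa [hcs, hcs] at this
  have hcardE : (univ.erase i0 : Finset I).card + 1 = Fintype.card I := by
    rw [card_erase_of_mem (mem_univ _), card_univ]
    have : 0 < Fintype.card I := Fintype.card_pos_iff.2 ⟨i0⟩
    omega
  let P : Finset (Finset X × X) := univ.filter (fun p => p.2 ∈ p.1 ∧ p.1.card = Fintype.card I ∧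
    Prim r p.1 ∧ (p.1.erase p.2).image c = univ.erase i0)
  have hPmem : ∀ p : Finset X × X, p ∈ P ↔ (p.2 ∈ p.1 ∧ p.1.card = Fintype.card I ∧
    Prim r p.1 ∧ (p.1.erase p.2).image c = univ.erase i0) := by
    intro p
    simp only [P, mem_filter, mem_univ, true_and]
  have heven : Even P.card := by
    rw [Finset.card_eq_sum_card_fiberwise (f := Prod.fst) (t := univ) (fun _ _ => mem_univ _)]
    apply Finset.even_sum
    intro S _
    rcases (P.filter (fun p => p.1 = S)).eq_empty_or_nonempty with he | ⟨⟨S', x⟩, hx⟩
    · rw [he]; simp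
    · rw [mem_filter] at hx
      obtain ⟨hx1, hx2⟩ := hx
      simp only at hx2
      subst hx2
      rw [hPmem] at hx1
      obtain ⟨hxS, hScard, hSP, hSc⟩ := hx1
      simp only at hxS hScard hSP hSc
      have hinj : Set.InjOn c (S'.erase x) := by
        apply Finset.injOn_of_card_image_eq
        rw [hSc, card_erase_of_mem hxS]
        omega
      have hcx : c x ≠ i0 := by
        intro h
        apply hcon S' hScard hSP
        rw [← insert_erase hxS, image_insert, hSc, h, insert_erase (mem_univ _)]
      have hcx2 : c x ∈ (S'.erase x).image c := by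
        rw [hSc]
        exact mem_erase.2 ⟨hcx, mem_univ _⟩
      obtain ⟨x', hx', hcx'⟩ := mem_image.1 hcx2
      have hx'S : x' ∈ S' := (mem_erase.1 hx').2
      have hx'x : x' ≠ x := (mem_erase.1 hx').1
      have himg : (S'.erase x').image c = (S'.erase x).image c := by
        ext a
        constructor
        · intro ha
          obtain ⟨y, hy, rfl⟩ := mem_image.1 ha
          by_cases hyx : y = x
          · subst hyx
            rw [← hcx']
            exact mem_image_of_mem c hx'
          · exact mem_image_of_mem c (mem_erase.2 ⟨hyx, (mem_erase.1 hy).2⟩)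
        · intro ha
          obtain ⟨y, hy, rfl⟩ := mem_image.1 ha
          by_cases hyx : y = x'
          · subst hyx
            rw [hcx']
            exact mem_image_of_mem c (mem_erase.2 ⟨hx'x.symm, hxS⟩)
          · exact mem_image_of_mem c (mem_erase.2 ⟨hyx, (mem_erase.1 hy).2⟩)
      have hset : P.filter (fun p => p.1 = S') = {(S', x), (S', x')} := by
        ext ⟨A, y⟩
        simp only [mem_filter, mem_insert, mem_singleton, Prod.mk.injEq]
        constructor
        · rintro ⟨hp, rfl⟩
          rw [hPmem] at hp
          obtain ⟨hyS, -, -, hyc⟩ := hp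
          simp only at hyS hyc
          by_contra hne
          push Not at hne
          have hyx : y ≠ x := hne.1 rfl
          have hyx' : y ≠ x' := hne.2 rfl
          have hy1 : c y ∈ (A.erase x).image c :=
            mem_image_of_mem c (mem_erase.2 ⟨hyx, hyS⟩)
          rw [hSc, ← hyc] at hy1
          obtain ⟨w, hw, hwy⟩ := mem_image.1 hy1
          have hwy' : w ≠ y := (mem_erase.1 hw).1
          by_cases hwx : w = x
          · rw [hwx, ← hcx'] at hwy
            exact hyx'.symm (hinj hx' (by exact_mod_cast mem_erase.2 ⟨hyx, hyS⟩) hwy)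
          · exact hwy' (hinj (by exact_mod_cast mem_erase.2 ⟨hwx, (mem_erase.1 hw).2⟩)
              (by exact_mod_cast mem_erase.2 ⟨hyx, hyS⟩) hwy)
        · rintro (⟨rfl, rfl⟩ | ⟨rfl, rfl⟩)
          · exact ⟨(hPmem _).2 ⟨hxS, hScard, hSP, hSc⟩, rfl⟩
          · exact ⟨(hPmem _).2 ⟨hx'S, hScard, hSP, by simp only; rw [himg, hSc]⟩, rfl⟩
      rw [hset, card_pair (by intro h; exact hx'x (Prod.mk.inj h).2.symm)]
      exact even_two
  -- the fibres over doors
  have hfib : ∀ D : Finset X, D.image c = univ.erase i0 → D.card + 1 = Fintype.card I →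
      (P.filter (fun p => p.1.erase p.2 = D)).card =
      (univ.filter (fun x => x ∉ D ∧ Prim r (insert x D))).card := by
    intro D hDc hDcard
    symm
    apply Finset.card_bij (fun x _ => (insert x D, x))
    · intro x hx
      simp only [mem_filter, mem_univ, true_and] at hx
      rw [mem_filter, hPmem]
      simp only
      rw [erase_insert hx.1]
      exact ⟨⟨mem_insert_self _ _, by rw [card_insert_of_notMem hx.1]; exact hDcard, hx.2, hDc⟩, rfl⟩
    · intro a _ b _ hab
      exact (Prod.mk.inj hab).2
    · rintro ⟨S, x⟩ hx
      rw [mem_filter, hPmem] at hx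
      obtain ⟨⟨h1, h2, h3, h4⟩, h5⟩ := hx
      simp only at h1 h2 h3 h4 h5
      refine ⟨x, ?_, ?_⟩
      · simp only [mem_filter, mem_univ, true_and]
        rw [← h5, insert_erase h1]
        exact ⟨notMem_erase _ _, h3⟩
      · rw [← h5, insert_erase h1]
  have hodd : ¬ Even P.card := by
    rw [Finset.card_eq_sum_card_fiberwise (f := fun p : Finset X × X => p.1.erase p.2)
      (t := univ) (fun _ _ => mem_univ _)]
    rw [← Finset.add_sum_erase univ _ (mem_univ ((univ.erase i0).image s))]
    have hD0c : ((univ.erase i0).image s).image c = univ.erase i0 := by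
      rw [image_image]
      have : (c ∘ s) = id := by
        funext i
        exact hcs i
      rw [this, image_id]
    have hD0card : ((univ.erase i0).image s).card + 1 = Fintype.card I := by
      rw [card_image_of_injective _ hsinj]
      exact hcardE
    rw [hfib _ hD0c hD0card, door_one r hr s hlow hhigh hT i0]
    have hev : Even (∑ D ∈ univ.erase ((univ.erase i0).image s),
        (P.filter (fun p : Finset X × X => p.1.erase p.2 = D)).card) := by
      apply Finset.even_sum
      intro D hD
      have hDne : D ≠ (univ.erase i0).image s := (mem_erase.1 hD).1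
      rcases (P.filter (fun p : Finset X × X => p.1.erase p.2 = D)).eq_empty_or_nonempty with
        he | ⟨⟨S, x⟩, hx⟩
      · rw [he]; simp
      · rw [mem_filter, hPmem] at hx
        obtain ⟨⟨h1, h2, h3, h4⟩, h5⟩ := hx
        simp only at h1 h2 h3 h4 h5
        rw [h5] at h4
        have hDcard : D.card + 1 = Fintype.card I := by
          rw [← h5, card_erase_of_mem h1, h2]
          have : 0 < Fintype.card I := Fintype.card_pos_iff.2 ⟨i0⟩
          omega
        have hDP : Prim r D := h3.mono (by rw [← h5]; exact erase_subset _ _)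
        -- there is a non-slack element in `D`
        have hns : ∃ t ∈ D, ∀ k, t ≠ s k := by
          by_contra hall
          push Not at hall
          apply hDne
          apply Finset.eq_of_subset_of_card_le
          · intro y hy
            obtain ⟨k, hk⟩ := hall y hy
            have hcy : c y ∈ univ.erase i0 := by
              rw [← h4]; exact mem_image_of_mem c hy
            rw [hk, hcs] at hcy
            rw [hk]
            exact mem_image_of_mem s hcy
          · omega
        obtain ⟨t, htD, ht⟩ := hns
        rw [hfib D h4 hDcard, door_two r hr D hDcard ⟨t, htD⟩ hDP]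
        · exact even_two
        · intro k
          refine ⟨s k, fun l hl => ⟨t, htD, hhigh l k t hl ht⟩⟩
    intro h
    rw [Nat.even_add] at h
    have := h.2 hev
    exact absurd this (by decide)
  exact hodd heven

end Prim

/-- **Scarf's lemma.** -/
theorem scarf {I T : Type*} [Fintype I] [DecidableEq I] [Fintype T] [Nonempty T]
    (r : I → T → ℕ) (hr : ∀ i, Function.Injective (r i)) (c : T → I) :
    ∃ σ : Finset T, Set.InjOn c σ ∧
      ∀ y, ∃ i, (∃ x ∈ σ, c x = i) ∧ ∀ x ∈ σ, r i y ≤ r i x := by
  classical
  obtain ⟨t0⟩ := (inferInstance : Nonempty T)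
  set B : ℕ := ∑ i, ∑ t, r i t with hB
  have hrB : ∀ i t, r i t ≤ B := by
    intro i t
    rw [hB]
    refine le_trans ?_ (Finset.single_le_sum (f := fun i => ∑ t, r i t) (fun _ _ => Nat.zero_le _)
      (mem_univ i))
    exact Finset.single_le_sum (f := fun t => r i t) (fun _ _ => Nat.zero_le _) (mem_univ t)
  let e : I → ℕ := fun i => (Fintype.equivFin I i : ℕ)
  have he : Function.Injective e := by
    intro a b hab
    exact (Fintype.equivFin I).injective (Fin.ext hab)
  -- the extended orders
  let R : I → T ⊕ I → ℤ := fun i x => match x with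
    | Sum.inl t => (r i t : ℤ)
    | Sum.inr j => if j = i then -1 else (B : ℤ) + 1 + e j
  have hR1 : ∀ i t, R i (Sum.inl t) = (r i t : ℤ) := fun _ _ => rfl
  have hR2 : ∀ i, R i (Sum.inr i) = -1 := by
    intro i
    simp [R]
  have hR3 : ∀ i j, j ≠ i → R i (Sum.inr j) = (B : ℤ) + 1 + e j := by
    intro i j hij
    simp [R, hij]
  have hRinj : ∀ i, Function.Injective (R i) := by
    intro i x y hxy
    rcases x with t | j <;> rcases y with t' | j'
    · rw [hR1, hR1] at hxy
      have h1 : t = t' := hr i (by exact_mod_cast hxy)
      rw [h1]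
    · exfalso
      rw [hR1] at hxy
      have h1 := hrB i t
      by_cases hj : j' = i
      · subst hj
        rw [hR2] at hxy
        omega
      · rw [hR3 i j' hj] at hxy
        have : (r i t : ℤ) ≤ B := by exact_mod_cast h1
        omega
    · exfalso
      rw [hR1] at hxy
      have h1 := hrB i t'
      by_cases hj : j = i
      · subst hj
        rw [hR2] at hxy
        omega
      · rw [hR3 i j hj] at hxy
        have : (r i t' : ℤ) ≤ B := by exact_mod_cast h1
        omega
    · by_cases hj : j = i <;> by_cases hj' : j' = i
      · rw [hj, hj']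
      · exfalso
        rw [hj, hR2, hR3 i j' hj'] at hxy
        omega
      · exfalso
        rw [hj', hR2, hR3 i j hj] at hxy
        omega
      · rw [hR3 i j hj, hR3 i j' hj'] at hxy
        have : e j = e j' := by omega
        rw [he this]
  obtain ⟨S, hScard, hSP, hSc⟩ := scarf_aux R hRinj (Sum.inr) (Sum.elim c id)
    (fun i => rfl)
    (by
      intro i x hx
      rw [hR2]
      rcases x with t | j
      · rw [hR1]; omega
      · have hji : j ≠ i := fun h => hx (by rw [h])
        rw [hR3 i j hji]; omega)
    (by
      intro i j x hij hx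
      rcases x with t | k
      · rw [hR1, hR3 i j hij.symm]
        have : (r i t : ℤ) ≤ B := by exact_mod_cast hrB i t
        omega
      · exact absurd rfl (hx k))
    ⟨Sum.inl t0, fun k h => by simp at h⟩ (c t0)
  have hcinj : Set.InjOn (Sum.elim c id) (S : Set (T ⊕ I)) := by
    apply Finset.injOn_of_card_image_eq
    rw [hSc, hScard, card_univ]
  refine ⟨univ.filter (fun t => Sum.inl t ∈ S), ?_, ?_⟩
  · intro a ha b hb hab
    simp only [coe_filter, mem_univ, true_and, Set.mem_ofPred_eq] at ha hb
    exact Sum.inl_injective (hcinj ha hb hab)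
  · intro y
    obtain ⟨i, hi⟩ := hSP (Sum.inl y)
    have hiS : Sum.inr i ∉ S := by
      intro h
      have := hi _ h
      rw [hR1, hR2] at this
      omega
    have himg : i ∈ S.image (Sum.elim c id) := by rw [hSc]; exact mem_univ i
    obtain ⟨x, hxS, hxi⟩ := mem_image.1 himg
    refine ⟨i, ?_, ?_⟩
    · rcases x with t | j
      · exact ⟨t, by simp [hxS], hxi⟩
      · exfalso
        simp only [Sum.elim_inr, id] at hxi
        rw [hxi] at hxS
        exact hiS hxS
    · intro x' hx'
      simp only [mem_filter, mem_univ, true_and] at hx'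
      have := hi _ hx'
      rw [hR1, hR1] at this
      exact_mod_cast this

end LT93
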