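import Mathlib
import Pool.Agent.LT93.Scarf

/-! Brouwer's fixed point theorem: for the standard simplex (from Scarf's lemma) and for compact
convex sets of real normed spaces (Schauder's reduction). -/

namespace LT93

open Finset

/-- the grid of mesh `1/N` in the simplex -/
abbrev Grid (I : Type*) [Fintype I] (N : ℕ) : Type _ := {x : I → Fin (N + 1) // ∑ i, (x i : ℕ) = N}

theorem grid_step {I : Type*} [Fintype I] [DecidableEq I] [Nonempty I]
    (f : (I → ℝ) → (I → ℝ)) (hm : Set.MapsTo f (stdSimplex ℝ I) (stdSimplex ℝ I))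
    (N : ℕ) (hN : 0 < N) :
    ∃ x ∈ stdSimplex ℝ I, ∀ i, x i ≤ (Fintype.card I : ℝ) / N ∨
      ∃ y ∈ stdSimplex ℝ I, (∀ j, |y j - x j| ≤ (Fintype.card I : ℝ) / N) ∧ y i ≤ f y i := by
  classical
  have hNR : (0 : ℝ) < N := by exact_mod_cast hN
  obtain ⟨i1⟩ := (inferInstance : Nonempty I)
  -- points
  let p : Grid I N → (I → ℝ) := fun x i => ((x.1 i : ℕ) : ℝ) / N
  have hp : ∀ x, p x ∈ stdSimplex ℝ I := by
    intro x
    refine ⟨fun i => by positivity, ?_⟩
    have h1 : ∑ i, p x i = (∑ i, ((x.1 i : ℕ) : ℝ)) / N := by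
      rw [Finset.sum_div]
    rw [h1]
    have h2 : (∑ i, ((x.1 i : ℕ) : ℝ)) = (N : ℝ) := by exact_mod_cast x.2
    rw [h2, div_self hNR.ne']
  -- existence of grid points
  have hmk : ∀ y : I → ℕ, ∑ i, y i = N → ∃ z : Grid I N, ∀ i, (z.1 i : ℕ) = y i := by
    intro y hy
    have hle : ∀ i, y i < N + 1 := by
      intro i
      have := Finset.single_le_sum (f := y) (fun _ _ => Nat.zero_le _) (mem_univ i)
      omega
    exact ⟨⟨fun i => ⟨y i, hle i⟩, hy⟩, fun i => rfl⟩
  have : Nonempty (Grid I N) := by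
    obtain ⟨z, -⟩ := hmk (fun i => if i = i1 then N else 0) (by simp)
    exact ⟨z⟩
  -- labels
  have hlab : ∀ x : Grid I N, ∃ i, p x i ≤ f (p x) i := by
    intro x
    by_contra hcon
    push Not at hcon
    have h1 : ∑ i, f (p x) i < ∑ i, p x i :=
      Finset.sum_lt_sum_of_nonempty univ_nonempty (fun i _ => hcon i)
    rw [(hp x).2, (hm (hp x)).2] at h1
    exact lt_irrefl _ h1
  choose c hc using hlab
  -- orders
  let M := Fintype.card (Grid I N)
  let e : Grid I N → ℕ := fun x => (Fintype.equivFin (Grid I N) x : ℕ)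
  have heM : ∀ x, e x < M := fun x => (Fintype.equivFin (Grid I N) x).2
  have he : Function.Injective e := fun a b hab => (Fintype.equivFin _).injective (Fin.ext hab)
  let r : I → Grid I N → ℕ := fun i x => (x.1 i : ℕ) * M + e x
  have hr : ∀ i, Function.Injective (r i) := by
    intro i x y hxy
    apply he
    have h1 : r i x % M = e x := by
      simp only [r]
      rw [Nat.mul_comm, Nat.mul_add_mod]
      exact Nat.mod_eq_of_lt (heM x)
    have h2 : r i y % M = e y := by
      simp only [r]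
      rw [Nat.mul_comm, Nat.mul_add_mod]
      exact Nat.mod_eq_of_lt (heM y)
    rw [← h1, ← h2, hxy]
  have hrle : ∀ i x y, r i y ≤ r i x → (y.1 i : ℕ) ≤ (x.1 i : ℕ) := by
    intro i x y h
    by_contra hlt
    push Not at hlt
    have h1 : ((x.1 i : ℕ) + 1) * M ≤ (y.1 i : ℕ) * M := Nat.mul_le_mul_right _ hlt
    have h2 := heM x
    simp only [r] at h
    nlinarith
  obtain ⟨σ, hσ, hdom⟩ := scarf r hr c
  obtain ⟨x0, hx0⟩ : σ.Nonempty := by
    obtain ⟨i, ⟨x, hx, -⟩, -⟩ := hdom (Classical.arbitrary _)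
    exact ⟨x, hx⟩
  -- minima
  have hmin : ∀ i, ∃ a ∈ σ, ∀ x ∈ σ, (a.1 i : ℕ) ≤ (x.1 i : ℕ) := by
    intro i
    obtain ⟨a, ha, hamin⟩ := σ.exists_min_image (fun x => (x.1 i : ℕ)) ⟨x0, hx0⟩
    exact ⟨a, ha, hamin⟩
  choose a ha hamin using hmin
  let C : Finset I := univ.filter (fun i => ∃ x ∈ σ, c x = i)
  have hC : ∀ i, i ∈ C ↔ ∃ x ∈ σ, c x = i := by intro i; simp [C]
  -- the key inequality
  have hkey : N < ∑ i ∈ C, (((a i).1 i : ℕ) + 1) := by
    by_contra hle
    push Not at hle
    obtain ⟨z, hz⟩ := hmk (fun i => (if i ∈ C then ((a i).1 i : ℕ) + 1 else 0) +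
      (if i = i1 then N - ∑ i ∈ C, (((a i).1 i : ℕ) + 1) else 0)) (by
        rw [Finset.sum_add_distrib, ← Finset.sum_filter, Finset.sum_ite_eq' univ i1]
        simp only [mem_univ, if_true]
        have : univ.filter (fun i => i ∈ C) = C := by ext; simp
        rw [this]
        omega)
    obtain ⟨i, hi, hiz⟩ := hdom z
    have h1 := hrle i (a i) z (hiz _ (ha i))
    rw [hz i, if_pos ((hC i).2 hi)] at h1
    omega
  have hkey2 : N < ∑ i ∈ C, ((a i).1 i : ℕ) + Fintype.card I := by
    rw [Finset.sum_add_distrib] at hkey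
    simp only [sum_const, smul_eq_mul, mul_one] at hkey
    have : C.card ≤ Fintype.card I := card_le_univ C
    omega
  -- consequences
  have hsplit : ∀ x : Grid I N, ∑ i ∈ C, (x.1 i : ℕ) + ∑ i ∈ Cᶜ, (x.1 i : ℕ) = N := by
    intro x
    rw [Finset.sum_add_sum_compl]
    exact x.2
  have hin : ∀ x ∈ σ, ∀ i ∈ C, (x.1 i : ℕ) ≤ ((a i).1 i : ℕ) + Fintype.card I := by
    intro x hx i hi
    have h1 : ∑ j ∈ C.erase i, ((a j).1 j : ℕ) ≤ ∑ j ∈ C.erase i, (x.1 j : ℕ) :=
      Finset.sum_le_sum (fun j _ => hamin j x hx)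
    have h2 := Finset.add_sum_erase C (fun j => (x.1 j : ℕ)) hi
    have h3 := Finset.add_sum_erase C (fun j => ((a j).1 j : ℕ)) hi
    have h4 := hsplit x
    omega
  have hout : ∀ x ∈ σ, ∀ i, i ∉ C → (x.1 i : ℕ) ≤ Fintype.card I := by
    intro x hx i hi
    have h1 : ∑ j ∈ C, ((a j).1 j : ℕ) ≤ ∑ j ∈ C, (x.1 j : ℕ) :=
      Finset.sum_le_sum (fun j _ => hamin j x hx)
    have h2 : (x.1 i : ℕ) ≤ ∑ j ∈ Cᶜ, (x.1 j : ℕ) :=
      Finset.single_le_sum (f := fun j => (x.1 j : ℕ)) (fun _ _ => Nat.zero_le _)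
        (mem_compl.2 hi)
    have h4 := hsplit x
    omega
  have hdiff : ∀ x ∈ σ, ∀ y ∈ σ, ∀ i, (x.1 i : ℕ) ≤ (y.1 i : ℕ) + Fintype.card I := by
    intro x hx y hy i
    by_cases hi : i ∈ C
    · have h1 := hin x hx i hi
      have h2 := hamin i y hy
      omega
    · have h1 := hout x hx i hi
      omega
  refine ⟨p x0, hp x0, ?_⟩
  intro i
  by_cases hi : i ∈ C
  · right
    obtain ⟨x, hx, hxi⟩ := (hC i).1 hi
    refine ⟨p x, hp x, ?_, ?_⟩
    · intro j
      have h1 : ((x.1 j : ℕ) : ℝ) ≤ ((x0.1 j : ℕ) : ℝ) + Fintype.card I := by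
        exact_mod_cast hdiff x hx x0 hx0 j
      have h2 : ((x0.1 j : ℕ) : ℝ) ≤ ((x.1 j : ℕ) : ℝ) + Fintype.card I := by
        exact_mod_cast hdiff x0 hx0 x hx j
      have h3 : p x j - p x0 j = (((x.1 j : ℕ) : ℝ) - ((x0.1 j : ℕ) : ℝ)) / N := by
        simp only [p]; ring
      rw [h3, abs_div, abs_of_pos hNR]
      apply div_le_div_of_nonneg_right _ hNR.le
      rw [abs_le]
      constructor <;> linarith
    · have := hc x
      rw [hxi] at this
      exact this
  · left
    have h1 : ((x0.1 i : ℕ) : ℝ) ≤ Fintype.card I := by exact_mod_cast hout x0 hx0 i hi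
    exact div_le_div_of_nonneg_right h1 hNR.le

/-- **Brouwer's fixed point theorem for the standard simplex.** -/
theorem brouwer_simplex {I : Type*} [Fintype I] [Nonempty I]
    (f : (I → ℝ) → (I → ℝ)) (hf : ContinuousOn f (stdSimplex ℝ I))
    (hm : Set.MapsTo f (stdSimplex ℝ I) (stdSimplex ℝ I)) :
    ∃ x ∈ stdSimplex ℝ I, f x = x := by
  classical
  have hstep := fun k : ℕ => grid_step f hm (k + 1) (Nat.succ_pos k)
  choose x hx hxi using hstep
  obtain ⟨x', hx', φ, hφ, hlim⟩ := (isCompact_stdSimplex ℝ I).tendsto_subseq hx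
  refine ⟨x', hx', ?_⟩
  have hge : ∀ i, x' i ≤ f x' i := by
    intro i
    by_contra hlt
    push Not at hlt
    set g := x' i - f x' i with hg
    have hgpos : 0 < g := by rw [hg]; linarith
    have hcont := hf x' hx'
    rw [Metric.continuousWithinAt_iff] at hcont
    obtain ⟨δ0, hδ0, hδ⟩ := hcont (g / 4) (by linarith)
    set δ := min δ0 (g / 4) with hδdef
    have hδpos : 0 < δ := lt_min hδ0 (by linarith)
    have hδg : δ ≤ g / 4 := min_le_right _ _
    have hδδ0 : δ ≤ δ0 := min_le_left _ _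
    rw [Metric.tendsto_atTop] at hlim
    obtain ⟨K1, hK1⟩ := hlim (δ / 2) (by linarith)
    obtain ⟨K2, hK2⟩ := exists_nat_gt ((Fintype.card I : ℝ) / (δ / 2))
    set k := max K1 K2 with hk
    have hd1 : dist (x (φ k)) x' < δ / 2 := hK1 k (le_max_left _ _)
    have hφk : (K2 : ℝ) ≤ φ k := by
      exact_mod_cast le_trans (le_max_right K1 K2) (hφ.id_le k)
    have hd2 : (Fintype.card I : ℝ) / ((φ k + 1 : ℕ) : ℝ) < δ / 2 := by
      rw [div_lt_iff₀ (by positivity)]
      rw [div_lt_iff₀ (by linarith)] at hK2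
      push_cast
      nlinarith
    have hcoord : ∀ j, |x (φ k) j - x' j| < δ / 2 := by
      intro j
      have := dist_le_pi_dist (x (φ k)) x' j
      rw [Real.dist_eq] at this
      linarith
    rcases hxi (φ k) i with h | ⟨y, hy, hyx, hyf⟩
    · have h1 := (abs_lt.1 (hcoord i)).1
      have h2 : 0 ≤ f x' i := (hm hx').1 i
      linarith
    · have hdy : dist y x' < δ := by
        have h1 : dist y (x (φ k)) ≤ (Fintype.card I : ℝ) / ((φ k + 1 : ℕ) : ℝ) := by
          rw [dist_pi_le_iff (by positivity)]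
          intro j
          rw [Real.dist_eq]
          exact hyx j
        have := dist_triangle y (x (φ k)) x'
        linarith
      have h2 := hδ hy (lt_of_lt_of_le hdy hδδ0)
      have h3 : |f y i - f x' i| < g / 4 := by
        have := dist_le_pi_dist (f y) (f x') i
        rw [Real.dist_eq] at this
        linarith
      have h4 : |y i - x' i| < δ := by
        have := dist_le_pi_dist y x' i
        rw [Real.dist_eq] at this
        linarith
      have h5 := (abs_lt.1 h3)
      have h6 := (abs_lt.1 h4)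
      linarith [h5.1, h5.2, h6.1, h6.2]
  have hsum : ∑ i, x' i = ∑ i, f x' i := by rw [hx'.2, (hm hx').2]
  have := (Finset.sum_eq_sum_iff_of_le (fun i _ => hge i)).1 hsum
  funext i
  exact (this i (mem_univ i)).symm

/-- **Brouwer's (Schauder's) fixed point theorem** for compact convex sets. -/
theorem brouwerS {E : Type*} [NormedAddCommGroup E] [NormedSpace ℝ E] {C : Set E}
    (hc : IsCompact C) (hconv : Convex ℝ C) (hne : C.Nonempty) {f : E → E}
    (hf : ContinuousOn f C) (hm : Set.MapsTo f C C) : ∃ x ∈ C, f x = x := by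
  classical
  -- approximate fixed points
  have happ : ∀ ε : ℝ, 0 < ε → ∃ x ∈ C, dist x (f x) ≤ ε := by
    intro ε hε
    obtain ⟨t, htC, htfin, htcov⟩ := hc.finite_cover_balls hε
    have : Fintype t := htfin.fintype
    have : Nonempty t := by
      obtain ⟨x, hx⟩ := hne
      have := htcov hx
      simp only [Set.mem_iUnion] at this
      obtain ⟨y, hy, -⟩ := this
      exact ⟨⟨y, hy⟩⟩
    let φ : t → E → ℝ := fun i x => max 0 (ε - dist x i)
    have hφ0 : ∀ i x, 0 ≤ φ i x := fun i x => le_max_left _ _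
    have hφc : ∀ i, Continuous (φ i) := by
      intro i
      exact continuous_const.max (continuous_const.sub (continuous_id.dist continuous_const))
    let S : E → ℝ := fun x => ∑ i, φ i x
    have hSpos : ∀ x ∈ C, 0 < S x := by
      intro x hx
      have := htcov hx
      simp only [Set.mem_iUnion] at this
      obtain ⟨y, hy, hxy⟩ := this
      rw [Metric.mem_ball] at hxy
      apply Finset.sum_pos' (fun i _ => hφ0 i x)
      refine ⟨⟨y, hy⟩, mem_univ _, ?_⟩
      simp only [φ]
      exact lt_max_of_lt_right (by linarith)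
    have hScont : Continuous S := continuous_finsetSum _ (fun i _ => hφc i)
    let h : E → (t → ℝ) := fun x i => φ i x / S x
    have hhΔ : ∀ x ∈ C, h x ∈ stdSimplex ℝ t := by
      intro x hx
      refine ⟨fun i => div_nonneg (hφ0 i x) (hSpos x hx).le, ?_⟩
      simp only [h]
      rw [← Finset.sum_div]
      exact div_self (hSpos x hx).ne'
    have hhc : ContinuousOn h C := by
      apply continuousOn_pi.2
      intro i
      exact ((hφc i).continuousOn).div hScont.continuousOn (fun x hx => (hSpos x hx).ne')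
    let g : (t → ℝ) → E := fun w => ∑ i, w i • (i : E)
    have hgc : Continuous g := by
      apply continuous_finsetSum
      intro i _
      exact (continuous_apply i).smul continuous_const
    have hgC : ∀ w ∈ stdSimplex ℝ t, g w ∈ C := by
      intro w hw
      exact hconv.sum_mem (fun i _ => hw.1 i) hw.2 (fun i _ => htC i.2)
    obtain ⟨w, hw, hfix⟩ := brouwer_simplex (fun w => h (f (g w)))
      (hhc.comp (hf.comp hgc.continuousOn (fun w hw => hgC w hw))
        (fun w hw => hm (hgC w hw)))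
      (fun w hw => hhΔ _ (hm (hgC w hw)))
    refine ⟨g w, hgC w hw, ?_⟩
    have hz : f (g w) ∈ C := hm (hgC w hw)
    have hwz : ∀ i, w i = h (f (g w)) i := fun i => by
      have := congrFun hfix i
      simpa using this.symm
    have h1 : g w - f (g w) = ∑ i, w i • ((i : E) - f (g w)) := by
      simp only [smul_sub, Finset.sum_sub_distrib]
      rw [← Finset.sum_smul, hw.2, one_smul]
    rw [dist_eq_norm, h1]
    calc ‖∑ i, w i • ((i : E) - f (g w))‖ ≤ ∑ i, ‖w i • ((i : E) - f (g w))‖ := norm_sum_le _ _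
      _ ≤ ∑ i, w i * ε := by
          apply Finset.sum_le_sum
          intro i _
          rw [norm_smul, Real.norm_of_nonneg (hw.1 i)]
          by_cases hφi : φ i (f (g w)) = 0
          · have : w i = 0 := by
              rw [hwz i]
              simp only [h]
              rw [hφi, zero_div]
            rw [this]; simp
          · apply mul_le_mul_of_nonneg_left _ (hw.1 i)
            have h2 : 0 < φ i (f (g w)) := lt_of_le_of_ne (hφ0 i _) (Ne.symm hφi)
            simp only [φ] at h2
            rcases lt_max_iff.1 h2 with h3 | h3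
            · exact absurd h3 (lt_irrefl _)
            · rw [← dist_eq_norm, dist_comm]
              linarith
      _ = ε := by rw [← Finset.sum_mul, hw.2, one_mul]
  -- minimise the displacement
  have hdc : ContinuousOn (fun x => dist x (f x)) C :=
    continuous_dist.comp_continuousOn (continuousOn_id.prodMk hf)
  obtain ⟨x, hx, hxmin⟩ := hc.exists_isMinOn hne hdc
  refine ⟨x, hx, ?_⟩
  by_contra hne'
  have hpos : 0 < dist x (f x) := dist_pos.2 (fun h => hne' h.symm)
  obtain ⟨y, hy, hyd⟩ := happ (dist x (f x) / 2) (by linarith)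
  have := hxmin hy
  simp only [Set.mem_ofPred_eq] at this
  linarith

end LT93
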