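import Pool.Agent.LT93.Defs
import Pool.Agent.LT75.Core

/-!
# [Core] There is a projective frame in which all sets are fat

Translation of `LT75.core` (vectors `Fin 4 → ℝ`, positive definite matrices) to the language of `LT93.Defs`.
-/

namespace LT93

open Matrix

/-- The absolute constant: all sets contain a triple with at least this Gram determinant. -/
noncomputable def delta0 : ℝ := 1 / 4000000

theorem delta0_pos : 0 < delta0 := by unfold delta0; norm_num

/-- The vector `(p, 1)` as a function. -/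
noncomputable def liftV (p : E3) : Fin 4 → ℝ := ![p 0, p 1, p 2, 1]

theorem liftV_eq (p : E3) : WithLp.linearEquiv 2 ℝ (Fin 4 → ℝ) (hat p) = liftV p := by
  ext i
  fin_cases i <;> simp [hat, liftV]

theorem liftV_continuous : Continuous liftV := by
  refine continuous_pi ?_
  intro i
  fin_cases i <;> simp [liftV] <;> fun_prop

theorem body_image {η : ℝ} (hη : 0 < η) {C : Set E3} (hne : C.Nonempty) (hcv : Convex ℝ C)
    (hcp : IsCompact C)
    (hb : ∀ z ∈ C, ∃ q : E3, z ∈ Metric.closedBall q η ∧ Metric.closedBall q η ⊆ C) :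
    LT75.Body η (liftV '' C) := by
  refine ⟨hne.image _, ?_, hcp.image liftV_continuous, ?_, ?_⟩
  · rintro _ ⟨x, hx, rfl⟩ _ ⟨y, hy, rfl⟩ a b ha hb' hab
    refine ⟨a • x + b • y, hcv hx hy ha hb' hab, ?_⟩
    ext i
    fin_cases i <;> simp [liftV]
    exact hab.symm
  · rintro _ ⟨x, hx, rfl⟩
    simp [liftV]
  · rintro _ ⟨x, hx, rfl⟩
    obtain ⟨q, hq1, hq2⟩ := hb x hx
    have key : ∀ a b : E3, (liftV a - liftV b) ⬝ᵥ (liftV a - liftV b) = dist a b ^ 2 := by
      intro a b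
      rw [EuclideanSpace.dist_eq, Real.sq_sqrt (Finset.sum_nonneg fun i _ => sq_nonneg _)]
      simp [liftV, dotProduct, Fin.sum_univ_four, Fin.sum_univ_three, Real.dist_eq, sq_abs]
      ring
    refine ⟨liftV q, by simp [liftV], ?_, ?_⟩
    · rw [key]
      have := Metric.mem_closedBall.mp hq1
      gcongr
    · intro y hy3 hy
      refine ⟨!₂[y 0, y 1, y 2], hq2 ?_, ?_⟩
      · have hl : liftV !₂[y 0, y 1, y 2] = y := by
          ext i
          fin_cases i <;> simp [liftV, hy3]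
        rw [← hl, key] at hy
        rw [Metric.mem_closedBall]
        exact (pow_le_pow_iff_left₀ dist_nonneg hη.le two_ne_zero).mp hy
      · ext i
        fin_cases i <;> simp [liftV, hy3]

theorem gram3_eq (x y z : E4) : gram3 x y z =
    inner ℝ x x * inner ℝ y y * inner ℝ z z + 2 * (inner ℝ x y * inner ℝ y z * inner ℝ x z)
    - inner ℝ x x * inner ℝ y z ^ 2 - inner ℝ y y * inner ℝ x z ^ 2 - inner ℝ z z * inner ℝ x y ^ 2 := by
  unfold gram3
  rw [Matrix.det_fin_three]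
  simp only [Matrix.gram, Matrix.of_apply, Matrix.cons_val_zero, Matrix.cons_val_one, Matrix.cons_val]
  rw [real_inner_comm x y, real_inner_comm x z, real_inner_comm y z]
  ring

theorem core {ι : Type} [Finite ι] {C : ι → Set E3} {η : ℝ} (hη : 0 < η)
    (hcv : ∀ i, Convex ℝ (C i)) (hcp : ∀ i, IsCompact (C i))
    (hb : ∀ i, ∀ z ∈ C i, ∃ q : E3, z ∈ Metric.closedBall q η ∧ Metric.closedBall q η ⊆ C i)
    (hi : ∀ i j, (C i ∩ C j).Nonempty) :
    ∃ g : E4 ≃ₗ[ℝ] E4, ∀ i, ∃ x ∈ C i, ∃ y ∈ C i, ∃ z ∈ C i,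
      delta0 ≤ gram3 (nrm g x) (nrm g y) (nrm g z) := by
  have := Fintype.ofFinite ι
  have hne : ∀ i, (C i).Nonempty := fun i => by
    obtain ⟨x, hx⟩ := hi i i
    exact ⟨x, hx.1⟩
  obtain ⟨M, hM, hfat⟩ := LT75.core hη (fun i => liftV '' C i)
    (fun i => body_image hη (hne i) (hcv i) (hcp i) (hb i))
    (fun i j => by
      obtain ⟨x, hx⟩ := hi i j
      exact ⟨liftV x, ⟨x, hx.1, rfl⟩, ⟨x, hx.2, rfl⟩⟩)
  obtain ⟨A, hA, hAM⟩ := LT75.exists_sqrt hM
  have hAu : IsUnit A := (Matrix.isUnit_iff_isUnit_det A).mpr hA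
  have hinv : Invertible A := hAu.invertible
  let e := WithLp.linearEquiv 2 ℝ (Fin 4 → ℝ)
  let g : E4 ≃ₗ[ℝ] E4 := e.trans ((Matrix.toLinearEquiv' A hinv).trans e.symm)
  have hg : ∀ p : E3, ∀ k, (g (hat p)) k = (A *ᵥ liftV p) k := by
    intro p k
    have h1 : g (hat p) = e.symm (A *ᵥ (e (hat p))) := rfl
    rw [h1]
    show (A *ᵥ (e (hat p))) k = _
    rw [liftV_eq]
  have hin : ∀ p q : E3, inner ℝ (g (hat p)) (g (hat q)) = LT75.ip M (liftV p) (liftV q) := by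
    intro p q
    rw [← hAM, LT75.ip_conj, LT75.ip_one, PiLp.inner_apply]
    simp only [dotProduct, RCLike.inner_apply, conj_trivial]
    refine Finset.sum_congr rfl fun k _ => ?_
    rw [hg, hg, mul_comm]
  refine ⟨g, fun i => ?_⟩
  obtain ⟨_, ⟨x, hx, rfl⟩, _, ⟨y, hy, rfl⟩, _, ⟨z, hz, rfl⟩, hxyz⟩ := hfat i
  refine ⟨x, hx, y, hy, z, hz, ?_⟩
  have hpos : ∀ p : E3, 0 < LT75.ip M (liftV p) (liftV p) := by
    intro p
    refine hM.2 _ ?_
    intro h0
    have := congrFun h0 3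
    simp [liftV] at this
  have hn : ∀ p : E3, ‖g (hat p)‖⁻¹ ^ 2 * LT75.ip M (liftV p) (liftV p) = 1 := by
    intro p
    rw [← hin, real_inner_self_eq_norm_sq]
    have h0 : ‖g (hat p)‖ ≠ 0 := by
      intro h0
      have h1 := hpos p
      rw [← hin, real_inner_self_eq_norm_sq, h0] at h1
      norm_num at h1
    field_simp
  have hX := hpos x
  have hY := hpos y
  have hZ := hpos z
  have hNx := hn x
  have hNy := hn y
  have hNz := hn z
  have hgr : gram3 (nrm g x) (nrm g y) (nrm g z) =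
      (‖g (hat x)‖⁻¹ ^ 2 * ‖g (hat y)‖⁻¹ ^ 2 * ‖g (hat z)‖⁻¹ ^ 2) *
        LT75.G3 M (liftV x) (liftV y) (liftV z) := by
    rw [gram3_eq]
    unfold nrm LT75.G3
    simp only [real_inner_smul_left, real_inner_smul_right, hin]
    ring
  rw [hgr]
  have hprod : (‖g (hat x)‖⁻¹ ^ 2 * ‖g (hat y)‖⁻¹ ^ 2 * ‖g (hat z)‖⁻¹ ^ 2) *
      (LT75.ip M (liftV x) (liftV x) * LT75.ip M (liftV y) (liftV y) *
        LT75.ip M (liftV z) (liftV z)) = 1 := by
    calc _ = (‖g (hat x)‖⁻¹ ^ 2 * LT75.ip M (liftV x) (liftV x)) *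
        (‖g (hat y)‖⁻¹ ^ 2 * LT75.ip M (liftV y) (liftV y)) *
        (‖g (hat z)‖⁻¹ ^ 2 * LT75.ip M (liftV z) (liftV z)) := by ring
      _ = 1 := by rw [hNx, hNy, hNz]; norm_num
  have hc0 : 0 ≤ ‖g (hat x)‖⁻¹ ^ 2 * ‖g (hat y)‖⁻¹ ^ 2 * ‖g (hat z)‖⁻¹ ^ 2 := by positivity
  have := mul_le_mul_of_nonneg_left hxyz.le hc0
  rw [hprod] at this
  unfold delta0
  linarith

end LT93
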