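import Mathlib

/-!
# MP_7814b8_co: pairwise intersecting convex sets in `ℝ³` are crossed by a bounded number of lines

Definitions used by all modules `Pool.Agent.LT93.*`.  Complete proof in plain words:
`/team-store/MP_7814b8_proof_helper93.md`.
-/

namespace LT93

/-- `ℝ³` -/
abbrev E3 : Type := EuclideanSpace ℝ (Fin 3)

/-- `ℝ⁴` -/
abbrev E4 : Type := EuclideanSpace ℝ (Fin 4)

/-- A line of `ℝ³`, given by a point and a nonzero direction. -/
structure Ln where
  p : E3
  d : E3
  hd : d ≠ 0

/-- The points of the line. -/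
def Ln.pts (l : Ln) : Set E3 := {x | ∃ s : ℝ, x = l.p + s • l.d}

/-- The line meets the (possibly degenerate) triangle with vertices `x, y, z`. -/
def Meets (l : Ln) (x y z : E3) : Prop := (l.pts ∩ convexHull ℝ {x, y, z}).Nonempty

open Classical in
/-- The indicator `0`/`1` of a proposition. -/
noncomputable def ind (P : Prop) : ℝ := if P then 1 else 0

theorem ind_nonneg (P : Prop) : 0 ≤ ind P := by unfold ind; split_ifs <;> norm_num

theorem ind_le_one (P : Prop) : ind P ≤ 1 := by unfold ind; split_ifs <;> norm_num

/-- Expectation of a function of two independent indices with law `w`. -/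
noncomputable def ex2 {T : Type} [Fintype T] (w : T → ℝ) (F : T → T → ℝ) : ℝ :=
  ∑ t, ∑ a, w t * w a * F t a

/-- Expectation of a function of four independent indices with law `w`. -/
noncomputable def ex4 {T : Type} [Fintype T] (w : T → ℝ) (F : T → T → T → T → ℝ) : ℝ :=
  ∑ t, ∑ a, ∑ b, ∑ c, w t * w a * w b * w c * F t a b c

/-- The vector `(p, 1)` of `ℝ⁴`. -/
noncomputable def hat (p : E3) : E4 := !₂[p 0, p 1, p 2, 1]

/-- The unit vector in the direction of `g (p, 1)`. -/
noncomputable def nrm (g : E4 ≃ₗ[ℝ] E4) (p : E3) : E4 := ‖g (hat p)‖⁻¹ • g (hat p)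

/-- The Gram determinant of three vectors. -/
noncomputable def gram3 (x y z : E4) : ℝ := (Matrix.gram ℝ ![x, y, z]).det

end LT93
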