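import Pool.Agent.LT93.Defs

/-!
# [LimLines] Limit of lines

Finitely many compact sets `K i`; for every `η > 0` there are `C` lines such that every `K i` has distance `≤ η` from one of them.
Then there are `C` lines which meet all `K i`.

Proof.  If `ι` is empty, take any lines (there is a line, e.g. `⟨0, EuclideanSpace.single 0 1, _⟩`).
Choose `R ≥ 1` with `K i ⊆ closedBall 0 R` for all `i`.

`lim_step`: for `0 < η ≤ 1` there are `j : ι → Fin C`, `p v : Fin C → E3`, `y : ι → E3`, `s : ι → ℝ` with `‖p k‖ ≤ R + 1`, `‖v k‖ = 1`,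
`y i ∈ K i`, `|s i| ≤ 2 * R + 2`, `‖p (j i) + s i • v (j i) - y i‖ ≤ η`: if the line `l k` is used by some `i` (`j i = k`), take as `p k`
the point `x` of `l k` near `K i` for one such `i`, and `v k = ‖d‖⁻¹ • d`; otherwise `p k = 0` and
`v k = EuclideanSpace.single 0 1`.  All points `x` used have norm `≤ R + 1`, so `|s| = ‖x - p‖ ≤ 2 R + 2`.

Apply this with `η = 1 / (n + 1)`; the data `(p, v, y, s)` lie in a compact set of `(Fin C → E3) × (Fin C → E3) × (ι → E3) × (ι → ℝ)`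
(`isCompact_univ_pi`, `IsCompact.prod`), and `j` in a finite type (give it the discrete topology or use
`Finite.exists_infinite_fiber` first), so there is a convergent subsequence with constant `j` (`IsCompact.tendsto_subseq`).  In the limit
`p (j i) + s i • v (j i) = y i ∈ K i`, `‖v k‖ = 1`.
-/

namespace LT93

theorem lim_step {ι : Type} [Finite ι] {K : ι → Set E3} {R : ℝ} (hR : 1 ≤ R)
    (hK : ∀ i, K i ⊆ Metric.closedBall 0 R) {C : ℕ} {η : ℝ} (hη : 0 < η) (hη1 : η ≤ 1)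
    (h : ∃ l : Fin C → Ln, ∀ i, ∃ j, ∃ x ∈ (l j).pts, ∃ y ∈ K i, dist x y ≤ η) :
    ∃ (j : ι → Fin C) (p v : Fin C → E3) (y : ι → E3) (s : ι → ℝ),
      (∀ k, ‖p k‖ ≤ R + 1) ∧ (∀ k, ‖v k‖ = 1) ∧ (∀ i, y i ∈ K i) ∧ (∀ i, |s i| ≤ 2 * R + 2) ∧
      ∀ i, ‖p (j i) + s i • v (j i) - y i‖ ≤ η := by
  classical
  obtain ⟨l, hl⟩ := h
  choose j x hx y hy hd using hl
  have hxn : ∀ i, ‖x i‖ ≤ R + 1 := by
    intro i
    have h1 : ‖y i‖ ≤ R := by
      have := hK i (hy i)
      rwa [mem_closedBall_zero_iff] at this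
    have h2 : ‖x i - y i‖ ≤ η := by rw [← dist_eq_norm]; exact hd i
    have h3 : ‖x i‖ ≤ ‖x i - y i‖ + ‖y i‖ := by
      have := norm_add_le (x i - y i) (y i)
      rwa [sub_add_cancel] at this
    linarith
  let p : Fin C → E3 := fun k => if hk : ∃ i, j i = k then x hk.choose else 0
  let v : Fin C → E3 := fun k => ‖(l k).d‖⁻¹ • (l k).d
  have hdn : ∀ k, ‖(l k).d‖ ≠ 0 := fun k => norm_ne_zero_iff.2 (l k).hd
  have hv : ∀ k, ‖v k‖ = 1 := by
    intro k
    simp only [v, norm_smul, norm_inv, norm_norm]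
    exact inv_mul_cancel₀ (hdn k)
  have hp : ∀ k, ‖p k‖ ≤ R + 1 := by
    intro k
    simp only [p]
    split_ifs with hk
    · exact hxn _
    · rw [norm_zero]; linarith
  have key : ∀ i, ∃ s : ℝ, x i = p (j i) + s • v (j i) := by
    intro i
    have hk : ∃ i', j i' = j i := ⟨i, rfl⟩
    have hpe : p (j i) = x hk.choose := by
      simp only [p]
      rw [dif_pos hk]
    have hje : j hk.choose = j i := hk.choose_spec
    obtain ⟨a, ha⟩ := hx i
    obtain ⟨b, hb⟩ := hx hk.choose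
    rw [hje] at hb
    refine ⟨(a - b) * ‖(l (j i)).d‖, ?_⟩
    rw [hpe, hb]
    simp only [v]
    rw [smul_smul, mul_assoc, mul_inv_cancel₀ (hdn (j i)), mul_one, sub_smul, ha]
    abel
  choose s hs using key
  refine ⟨j, p, v, y, s, hp, hv, hy, ?_, ?_⟩
  · intro i
    have h1 : s i • v (j i) = x i - p (j i) := by rw [hs i]; abel
    have h2 : |s i| = ‖x i - p (j i)‖ := by
      rw [← h1, norm_smul, hv, mul_one, Real.norm_eq_abs]
    have h3 := norm_sub_le (x i) (p (j i))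
    have h4 := hxn i
    have h5 := hp (j i)
    linarith
  · intro i
    rw [← hs i, ← dist_eq_norm]
    exact hd i

theorem lim_lines {ι : Type} [Finite ι] {K : ι → Set E3} (hK : ∀ i, IsCompact (K i)) {C : ℕ}
    (h : ∀ η : ℝ, 0 < η →
      ∃ l : Fin C → Ln, ∀ i, ∃ j, ∃ x ∈ (l j).pts, ∃ y ∈ K i, dist x y ≤ η) :
    ∃ l : Fin C → Ln, ∀ i, ∃ j, ((l j).pts ∩ K i).Nonempty := by
  classical
  obtain ⟨r, hr⟩ := (isCompact_iUnion hK).isBounded.subset_closedBall (0 : E3)
  set R : ℝ := max r 1 with hRdef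
  have hR : 1 ≤ R := le_max_right _ _
  have hKR : ∀ i, K i ⊆ Metric.closedBall 0 R := fun i =>
    ((Set.subset_iUnion K i).trans hr).trans (Metric.closedBall_subset_closedBall (le_max_left _ _))
  have hη : ∀ n : ℕ, (0 : ℝ) < 1 / ((n : ℝ) + 1) := fun n => by positivity
  have hη1 : ∀ n : ℕ, (1 : ℝ) / ((n : ℝ) + 1) ≤ 1 := fun n => by
    rw [div_le_one (by positivity)]
    have : (0 : ℝ) ≤ (n : ℝ) := Nat.cast_nonneg n
    linarith
  have step := fun n : ℕ => lim_step hR hKR (C := C) (hη n) (hη1 n) (h _ (hη n))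
  choose j p v y s hp hv hy hs hle using step
  let S : Set ((ι → Fin C) × (Fin C → E3) × (Fin C → E3) × (ι → E3) × (ι → ℝ)) :=
    Set.univ ×ˢ (Set.univ.pi fun _ => Metric.closedBall 0 (R + 1)) ×ˢ
      (Set.univ.pi fun _ => Metric.sphere 0 1) ×ˢ (Set.univ.pi fun i => K i) ×ˢ
      (Set.univ.pi fun _ => Metric.closedBall 0 (2 * R + 2))
  have hS : IsCompact S :=
    isCompact_univ.prod ((isCompact_univ_pi fun _ => isCompact_closedBall _ _).prod
      ((isCompact_univ_pi fun _ => isCompact_sphere _ _).prod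
        ((isCompact_univ_pi fun i => hK i).prod
          (isCompact_univ_pi fun _ => isCompact_closedBall _ _))))
  have hmem : ∀ n, (j n, p n, v n, y n, s n) ∈ S := by
    intro n
    refine ⟨Set.mem_univ _, ?_, ?_, ?_, ?_⟩
    · intro k _
      simpa using hp n k
    · intro k _
      simpa using hv n k
    · intro i _
      exact hy n i
    · intro i _
      simpa using hs n i
  obtain ⟨⟨j0, p0, v0, y0, s0⟩, ha, φ, hφ, hlim⟩ := hS.tendsto_subseq hmem
  obtain ⟨-, -, hv0, hy0, -⟩ := ha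
  simp only [nhds_prod_eq] at hlim
  have hj : Filter.Tendsto (fun n => j (φ n)) Filter.atTop (nhds j0) :=
    Filter.tendsto_fst.comp hlim
  have h2 := Filter.tendsto_snd.comp hlim
  have hpl : Filter.Tendsto (fun n => p (φ n)) Filter.atTop (nhds p0) :=
    Filter.tendsto_fst.comp h2
  have h3 := Filter.tendsto_snd.comp h2
  have hvl : Filter.Tendsto (fun n => v (φ n)) Filter.atTop (nhds v0) :=
    Filter.tendsto_fst.comp h3
  have h4 := Filter.tendsto_snd.comp h3
  have hyl : Filter.Tendsto (fun n => y (φ n)) Filter.atTop (nhds y0) :=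
    Filter.tendsto_fst.comp h4
  have hsl : Filter.Tendsto (fun n => s (φ n)) Filter.atTop (nhds s0) :=
    Filter.tendsto_snd.comp h4
  have hv1 : ∀ k, ‖v0 k‖ = 1 := by
    intro k
    have := hv0 k (Set.mem_univ k)
    simpa using this
  have hvne : ∀ k, v0 k ≠ 0 := fun k h0 => by
    have := hv1 k
    rw [h0, norm_zero] at this
    exact zero_ne_one this
  refine ⟨fun k => ⟨p0 k, v0 k, hvne k⟩, fun i => ⟨j0 i, y0 i, ⟨s0 i, ?_⟩, hy0 i (Set.mem_univ i)⟩⟩
  have hji : ∀ᶠ n in Filter.atTop, j (φ n) i = j0 i := by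
    have := (tendsto_pi_nhds.1 hj) i
    rw [nhds_discrete, Filter.tendsto_pure] at this
    exact this
  have hlim1 : Filter.Tendsto (fun n => ‖p (φ n) (j0 i) + s (φ n) i • v (φ n) (j0 i) - y (φ n) i‖)
      Filter.atTop (nhds ‖p0 (j0 i) + s0 i • v0 (j0 i) - y0 i‖) :=
    ((((tendsto_pi_nhds.1 hpl) _).add
      (((tendsto_pi_nhds.1 hsl) _).smul ((tendsto_pi_nhds.1 hvl) _))).sub
        ((tendsto_pi_nhds.1 hyl) _)).norm
  have hlim2 : Filter.Tendsto (fun n : ℕ => (1 : ℝ) / (((φ n : ℕ) : ℝ) + 1)) Filter.atTop (nhds 0) :=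
    (tendsto_one_div_add_atTop_nhds_zero_nat (𝕜 := ℝ)).comp hφ.tendsto_atTop
  have hle0 : ‖p0 (j0 i) + s0 i • v0 (j0 i) - y0 i‖ ≤ 0 := by
    refine le_of_tendsto_of_tendsto hlim1 hlim2 ?_
    filter_upwards [hji] with n hn
    have := hle (φ n) i
    rwa [hn] at this
  have h0 := norm_le_zero_iff.1 hle0
  exact (sub_eq_zero.1 h0).symm

end LT93
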