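import Pool.Agent.LT93.Defs

/-!
# [LineOf] A plane of `ℝ⁴` through the origin gives a line of `ℝ³`

`W` has dimension 2, `W' = W.comap g` has dimension 2 (`LinearEquiv.finrank_eq`).  If no `x y z` satisfies the hypothesis, any
line works.  Otherwise fix one triple `x y z` with `v = a • nrm g x + b • nrm g y + c • nrm g z ∈ W`.
`v = g v'` with `v' = a' • hat x + b' • hat y + c' • hat z`, `a' = a * ‖g (hat x)‖⁻¹ > 0` and so on, so `v' ∈ W'`; its last coordinate is
`s = a' + b' + c' > 0`; with `p = (a' / s) • x + (b' / s) • y + (c' / s) • z ∈ convexHull {x, y, z}` we have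
`v' = s • hat p`, so `hat p ∈ W'`.  (This is `plane_point`.)  Fix such a point `p0`.
`W'` is 2-dimensional and not contained in the 3-dimensional space `{v | v 3 = 0}`, so the intersection has dimension 1
(kernel of the nonzero functional `v ↦ v 3` on `W'`): it is `span {(d, 0)}`, `d ≠ 0`.
The line is `(p0, d)`.  For any other triple we get `p ∈ convexHull {x, y, z}` with
`hat p ∈ W'`, so `hat p - hat p0 = (p - p0, 0) ∈ span {(d, 0)}`, `p = p0 + t • d`.
-/

namespace LT93

theorem hat_ne_zero (p : E3) : hat p ≠ 0 := by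
  intro h
  have := congrArg (fun v : E4 => v 3) h
  simp [hat] at this

namespace LineOfAux

theorem hat_comb (x y z : E3) (a b c : ℝ) (hs : a + b + c ≠ 0) :
    hat ((a / (a + b + c)) • x + (b / (a + b + c)) • y + (c / (a + b + c)) • z) =
      (a + b + c)⁻¹ • (a • hat x + b • hat y + c • hat z) := by
  ext i
  fin_cases i
  · simp [hat]; field_simp
  · simp [hat]; field_simp
  · simp [hat]; field_simp
  · simp [hat]; field_simp

end LineOfAux

theorem plane_point (g : E4 ≃ₗ[ℝ] E4) (W : Submodule ℝ E4) {x y z : E3} {a b c : ℝ}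
    (ha : 0 < a) (hb : 0 < b) (hc : 0 < c)
    (h : a • nrm g x + b • nrm g y + c • nrm g z ∈ W) :
    ∃ p ∈ convexHull ℝ ({x, y, z} : Set E3), g (hat p) ∈ W := by
  have hg : ∀ p : E3, 0 < ‖g (hat p)‖⁻¹ := fun p =>
    inv_pos.2 (norm_pos_iff.2 (by
      rw [Ne, LinearEquiv.map_eq_zero_iff]; exact hat_ne_zero p))
  set a' := a * ‖g (hat x)‖⁻¹ with ha'
  set b' := b * ‖g (hat y)‖⁻¹ with hb'
  set c' := c * ‖g (hat z)‖⁻¹ with hc'
  have ha0 : 0 < a' := mul_pos ha (hg x)
  have hb0 : 0 < b' := mul_pos hb (hg y)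
  have hc0 : 0 < c' := mul_pos hc (hg z)
  have hs : 0 < a' + b' + c' := by positivity
  refine ⟨(a' / (a' + b' + c')) • x + (b' / (a' + b' + c')) • y + (c' / (a' + b' + c')) • z, ?_, ?_⟩
  · have hconv := convex_convexHull ℝ ({x, y, z} : Set E3)
    have hx : x ∈ convexHull ℝ ({x, y, z} : Set E3) := subset_convexHull ℝ _ (by simp)
    have hy : y ∈ convexHull ℝ ({x, y, z} : Set E3) := subset_convexHull ℝ _ (by simp)
    have hz : z ∈ convexHull ℝ ({x, y, z} : Set E3) := subset_convexHull ℝ _ (by simp)
    have h3 := hconv.sum_mem (t := Finset.univ) (w := ![a' / (a' + b' + c'), b' / (a' + b' + c'),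
      c' / (a' + b' + c')]) (z := ![x, y, z]) (by
        intro i _
        fin_cases i
        · exact (div_pos ha0 hs).le
        · exact (div_pos hb0 hs).le
        · exact (div_pos hc0 hs).le) (by
        simp [Fin.sum_univ_three]
        field_simp) (by
        intro i _
        fin_cases i
        · exact hx
        · exact hy
        · exact hz)
    simpa [Fin.sum_univ_three] using h3
  · rw [LineOfAux.hat_comb x y z a' b' c' hs.ne', map_smul, map_add, map_add, map_smul, map_smul,
      map_smul]
    apply W.smul_mem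
    have h1 : a' • g (hat x) + b' • g (hat y) + c' • g (hat z) =
        a • nrm g x + b • nrm g y + c • nrm g z := by
      simp only [nrm, smul_smul, ha', hb', hc']
    rw [h1]
    exact h

theorem line_of (g : E4 ≃ₗ[ℝ] E4) (W : Submodule ℝ E4) (hW : Module.finrank ℝ W = 2) :
    ∃ l : Ln, ∀ x y z : E3, (∃ a b c : ℝ, 0 < a ∧ 0 < b ∧ 0 < c ∧
      a • nrm g x + b • nrm g y + c • nrm g z ∈ W) → Meets l x y z := by
  by_cases hex : ∃ p0 : E3, g (hat p0) ∈ W
  · obtain ⟨p0, hp0⟩ := hex
    set W' : Submodule ℝ E4 := W.comap g.toLinearMap with hW'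
    have hfin : Module.finrank ℝ W' = 2 := by
      rw [← hW]
      have e : W' ≃ₗ[ℝ] W := by
        refine (g.submoduleMap W').trans (LinearEquiv.ofEq _ _ ?_)
        rw [hW', Submodule.map_comap_eq]
        simp
      exact e.finrank_eq
    let f : W' →ₗ[ℝ] ℝ := (EuclideanSpace.proj (3 : Fin 4) : E4 →L[ℝ] ℝ).toLinearMap.comp W'.subtype
    have hf : ∀ w : W', f w = (w : E4) 3 := fun w => rfl
    have hrange : LinearMap.range f = ⊤ := by
      rw [LinearMap.range_eq_top]
      intro r
      refine ⟨r • ⟨hat p0, hp0⟩, ?_⟩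
      rw [map_smul, hf]
      simp [hat]
    have hker : Module.finrank ℝ (LinearMap.ker f) = 1 := by
      have h1 := LinearMap.finrank_range_add_finrank_ker f
      rw [hrange, hfin, finrank_top, Module.finrank_self] at h1
      omega
    obtain ⟨v0, hv0, hspan⟩ := finrank_eq_one_iff'.1 hker
    set u : E4 := ((v0 : W') : E4) with hu
    have hu3 : u 3 = 0 := by
      have h1 := v0.2
      rw [LinearMap.mem_ker, hf] at h1
      exact h1
    have hu0 : u ≠ 0 := by
      intro h
      apply hv0
      ext1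
      ext1
      exact h
    refine ⟨⟨p0, !₂[u 0, u 1, u 2], ?_⟩, ?_⟩
    · intro h
      apply hu0
      have e0 := congrArg (fun v : E3 => v 0) h
      have e1 := congrArg (fun v : E3 => v 1) h
      have e2 := congrArg (fun v : E3 => v 2) h
      simp at e0 e1 e2
      ext i
      fin_cases i
      · simpa using e0
      · simpa using e1
      · simpa using e2
      · simpa using hu3
    · rintro x y z ⟨a, b, c, ha, hb, hc, h⟩
      obtain ⟨p, hp, hpW⟩ := plane_point g W ha hb hc h
      refine ⟨p, ?_, hp⟩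
      have hmem : (⟨hat p, hpW⟩ - ⟨hat p0, hp0⟩ : W') ∈ LinearMap.ker f := by
        rw [LinearMap.mem_ker, hf]
        simp [hat]
      obtain ⟨t, ht⟩ := hspan ⟨_, hmem⟩
      have ht' : t • u = hat p - hat p0 := by
        have h1 := congrArg (fun w : LinearMap.ker f => ((w : W') : E4)) ht
        simpa [hu] using h1
      refine ⟨t, ?_⟩
      have e0 := congrArg (fun v : E4 => v 0) ht'
      have e1 := congrArg (fun v : E4 => v 1) ht'
      have e2 := congrArg (fun v : E4 => v 2) ht'
      simp [hat] at e0 e1 e2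
      ext i
      fin_cases i
      · simp; linarith
      · simp; linarith
      · simp; linarith
  · refine ⟨⟨0, EuclideanSpace.single 0 1, by simp⟩, ?_⟩
    rintro x y z ⟨a, b, c, ha, hb, hc, h⟩
    obtain ⟨p, hp, hpW⟩ := plane_point g W ha hb hc h
    exact absurd ⟨p, hpW⟩ hex

end LT93
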