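import Pool.Agent.LT93.Defs

/-!
# [Net] A finite net of planes for all fat triples

`δ > 0`.  The set `K` of all triples of unit vectors `(x, y, z)` of `ℝ⁴` with `gram3 x y z ≥ δ` is compact (`gram3` is
continuous).  Local statement (`net_local`): let `x0, y0, z0` be linearly independent, `n0` a vector outside
their span (dimension 3 < 4), `W0 = span {x0 + y0 + z0, n0}`, `finrank W0 = 2`.  For `(x, y, z)` near `(x0, y0, z0)` there are
`a, b, c, d` with `a • x + b • y + c • z + d • n0 = x0 + y0 + z0` and `a, b, c > 0`: the linear map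
`M(x,y,z) : (a, b, c, d) ↦ a • x + b • y + c • z + d • n0` of `ℝ⁴` depends continuously on `(x, y, z)` and is invertible at
`(x0, y0, z0)`, where the solution is `(1, 1, 1, 0)`; inversion is continuous (`ContinuousLinearEquiv` / `Ring.inverse`
continuous at units, or Cramer's rule with the matrix and `Matrix.det ≠ 0`).  Then
`a • x + b • y + c • z = (x0 + y0 + z0) - d • n0 ∈ W0`.
`gram3 x0 y0 z0 ≠ 0` gives the linear independence (`Matrix.linearIndependent_of_det_gram_ne_zero`).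
Cover `K` by finitely many neighbourhoods (`IsCompact.elim_nhds_subcover`).
-/

namespace LT93

open scoped Matrix

theorem continuous_gram3 : Continuous (fun q : E4 × E4 × E4 => gram3 q.1 q.2.1 q.2.2) := by
  unfold gram3
  apply Continuous.matrix_det
  refine continuous_matrix fun i j => ?_
  simp only [Matrix.gram_apply]
  fin_cases i <;> fin_cases j <;> simp <;> fun_prop

/-- The matrix with columns `x, y, z, n`. -/
noncomputable def colM (n0 : E4) (q : E4 × E4 × E4) : Matrix (Fin 4) (Fin 4) ℝ :=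
  Matrix.of fun i j => (![q.1, q.2.1, q.2.2, n0] j) i

theorem continuous_colM (n0 : E4) : Continuous (colM n0) := by
  refine continuous_matrix fun i j => ?_
  fin_cases j <;> simp [colM] <;> fun_prop

theorem colM_mulVec (n0 : E4) (q : E4 × E4 × E4) (v : Fin 4 → ℝ) :
    (colM n0 q) *ᵥ v = (v 0 • q.1 + v 1 • q.2.1 + v 2 • q.2.2 + v 3 • n0 : E4).ofLp := by
  ext i
  simp [colM, Matrix.mulVec, dotProduct, Fin.sum_univ_four]
  ring

theorem det_colM_ne_zero {n0 x y z : E4} (h : LinearIndependent ℝ ![x, y, z, n0]) :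
    (colM n0 (x, y, z)).det ≠ 0 := by
  intro h0
  obtain ⟨v, hv, hv0⟩ := Matrix.exists_mulVec_eq_zero_iff.mpr h0
  rw [colM_mulVec] at hv0
  have h1 : (v 0 • x + v 1 • y + v 2 • z + v 3 • n0 : E4) = 0 := by
    ext i
    simpa using congrFun hv0 i
  apply hv
  have := Fintype.linearIndependent_iff.mp h v (by simpa [Fin.sum_univ_four] using h1)
  ext i
  exact this i

theorem net_local {x0 y0 z0 : E4} (h : gram3 x0 y0 z0 ≠ 0) :
    ∃ W : Submodule ℝ E4, Module.finrank ℝ W = 2 ∧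
      ∀ᶠ q : E4 × E4 × E4 in nhds (x0, y0, z0),
        ∃ a b c : ℝ, 0 < a ∧ 0 < b ∧ 0 < c ∧ a • q.1 + b • q.2.1 + c • q.2.2 ∈ W := by
  have hli : LinearIndependent ℝ ![x0, y0, z0] :=
    Matrix.linearIndependent_of_det_gram_ne_zero h
  obtain ⟨n0, hn0⟩ : ∃ n0 : E4, n0 ∉ Submodule.span ℝ (Set.range ![x0, y0, z0]) := by
    by_contra hcon
    push Not at hcon
    have htop : Submodule.span ℝ (Set.range ![x0, y0, z0]) = ⊤ := by
      exact Submodule.eq_top_iff'.mpr hcon
    have h1 := finrank_span_eq_card hli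
    rw [htop, finrank_top] at h1
    simp at h1
  have hli4 : LinearIndependent ℝ ![x0, y0, z0, n0] := by
    have h1 : ![x0, y0, z0, n0] = Fin.snoc ![x0, y0, z0] n0 := by
      ext i
      fin_cases i <;> rfl
    rw [h1]
    exact linearIndependent_finSnoc.mpr ⟨hli, hn0⟩
  have hli2 : LinearIndependent ℝ ![x0 + y0 + z0, n0] := by
    rw [LinearIndependent.pair_iff]
    intro s t hst
    have := Fintype.linearIndependent_iff.mp hli4 ![s, s, s, t] (by
      simp [Fin.sum_univ_four]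
      rw [← hst]
      module)
    exact ⟨by simpa using this 0, by simpa using this 3⟩
  set W0 := Submodule.span ℝ (Set.range ![x0 + y0 + z0, n0]) with hW0
  refine ⟨W0, by simpa using finrank_span_eq_card hli2, ?_⟩
  have hv0 : x0 + y0 + z0 ∈ W0 := Submodule.subset_span ⟨0, by simp⟩
  have hn0' : n0 ∈ W0 := Submodule.subset_span ⟨1, by simp⟩
  have hdet : (colM n0 (x0, y0, z0)).det ≠ 0 := det_colM_ne_zero hli4
  have hc := continuous_colM n0
  -- the solution
  set sol : E4 × E4 × E4 → Fin 4 → ℝ := fun q =>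
    (colM n0 q).det⁻¹ • (Matrix.cramer (colM n0 q) (x0 + y0 + z0 : E4).ofLp) with hsol
  have hsolc : ContinuousAt sol (x0, y0, z0) := by
    exact (ContinuousAt.inv₀ (hc.matrix_det.continuousAt) hdet).smul
      (hc.matrix_cramer continuous_const).continuousAt
  have hsol1 : ∀ q, (colM n0 q).det ≠ 0 →
      (colM n0 q) *ᵥ sol q = (x0 + y0 + z0 : E4).ofLp := by
    intro q hq
    simp only [hsol]
    rw [Matrix.mulVec_smul, Matrix.mulVec_cramer, smul_smul, inv_mul_cancel₀ hq, one_smul]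
  have hsol0 : sol (x0, y0, z0) = ![1, 1, 1, 0] := by
    have h1 := hsol1 _ hdet
    have h2 : (colM n0 (x0, y0, z0)) *ᵥ ![1, 1, 1, 0] = (x0 + y0 + z0 : E4).ofLp := by
      rw [colM_mulVec]; simp
    have hinj := Matrix.mulVec_injective_iff_isUnit.mpr
      ((Matrix.isUnit_iff_isUnit_det _).mpr (isUnit_iff_ne_zero.mpr hdet))
    exact hinj (h1.trans h2.symm)
  have hpos : ∀ i : Fin 4, i ≠ 3 → ∀ᶠ q in nhds (x0, y0, z0), 0 < sol q i := by
    intro i hi
    have hci : ContinuousAt (fun q => sol q i) (x0, y0, z0) :=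
      (continuous_apply i).continuousAt.comp hsolc
    have h1 : 0 < sol (x0, y0, z0) i := by
      rw [hsol0]; fin_cases i <;> simp_all
    exact hci.eventually (lt_mem_nhds h1)
  have hdet' : ∀ᶠ q in nhds (x0, y0, z0), (colM n0 q).det ≠ 0 :=
    hc.matrix_det.continuousAt.eventually_ne hdet
  filter_upwards [hdet', hpos 0 (by decide), hpos 1 (by decide), hpos 2 (by decide)] with q hq h0 h1 h2
  refine ⟨sol q 0, sol q 1, sol q 2, h0, h1, h2, ?_⟩
  have h3 := hsol1 q hq
  rw [colM_mulVec] at h3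
  have h4 : sol q 0 • q.1 + sol q 1 • q.2.1 + sol q 2 • q.2.2 + sol q 3 • n0 = x0 + y0 + z0 := by
    ext i; exact congrFun h3 i
  have h5 : sol q 0 • q.1 + sol q 1 • q.2.1 + sol q 2 • q.2.2 = (x0 + y0 + z0) - sol q 3 • n0 := by
    rw [← h4]; abel
  rw [h5]
  exact Submodule.sub_mem _ hv0 (Submodule.smul_mem _ _ hn0')

theorem net_planes {δ : ℝ} (hδ : 0 < δ) :
    ∃ S : Finset (Submodule ℝ E4), (∀ W ∈ S, Module.finrank ℝ W = 2) ∧
      ∀ x y z : E4, ‖x‖ = 1 → ‖y‖ = 1 → ‖z‖ = 1 → δ ≤ gram3 x y z →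
        ∃ W ∈ S, ∃ a b c : ℝ, 0 < a ∧ 0 < b ∧ 0 < c ∧ a • x + b • y + c • z ∈ W := by
  classical
  set K : Set (E4 × E4 × E4) :=
    (Metric.sphere (0 : E4) 1 ×ˢ (Metric.sphere (0 : E4) 1 ×ˢ Metric.sphere (0 : E4) 1)) ∩
      {q | δ ≤ gram3 q.1 q.2.1 q.2.2} with hK
  have hKc : IsCompact K := by
    refine IsCompact.inter_right ?_ (isClosed_le continuous_const continuous_gram3)
    exact (isCompact_sphere _ _).prod ((isCompact_sphere _ _).prod (isCompact_sphere _ _))
  have hne : ∀ q ∈ K, gram3 q.1 q.2.1 q.2.2 ≠ 0 := fun q hq => by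
    have h1 : δ ≤ gram3 q.1 q.2.1 q.2.2 := hq.2
    exact ne_of_gt (lt_of_lt_of_le hδ h1)
  have hloc : ∀ q ∈ K, ∃ W : Submodule ℝ E4, Module.finrank ℝ W = 2 ∧
      ∀ᶠ p : E4 × E4 × E4 in nhds q,
        ∃ a b c : ℝ, 0 < a ∧ 0 < b ∧ 0 < c ∧ a • p.1 + b • p.2.1 + c • p.2.2 ∈ W :=
    fun q hq => net_local (hne q hq)
  choose! W hW2 hWn using hloc
  obtain ⟨t, htK, htc⟩ := hKc.elim_nhds_subcover
    (fun q => {p : E4 × E4 × E4 |
        ∃ a b c : ℝ, 0 < a ∧ 0 < b ∧ 0 < c ∧ a • p.1 + b • p.2.1 + c • p.2.2 ∈ W q})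
    (fun q hq => hWn q hq)
  refine ⟨t.image W, ?_, ?_⟩
  · intro V hV
    obtain ⟨q, hq, rfl⟩ := Finset.mem_image.1 hV
    exact hW2 q (htK q hq)
  · intro x y z hx hy hz hg
    have hmem : ((x, y, z) : E4 × E4 × E4) ∈ K := by
      refine ⟨⟨?_, ?_, ?_⟩, hg⟩ <;> simpa using by assumption
    have h1 := htc hmem
    simp only [Set.mem_iUnion] at h1
    obtain ⟨q, hq, h2⟩ := h1
    exact ⟨W q, Finset.mem_image_of_mem W hq, h2⟩

end LT93
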