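import Pool.Agent.LT93.Net
import Pool.Agent.LT93.LineOf
import Pool.Agent.LT93.LimLines
import Pool.Agent.LT93.Core

/-!
# [Outer] From the core statement to the theorem
-/

namespace LT93

theorem nrm_unit (g : E4 ≃ₗ[ℝ] E4) (p : E3) : ‖nrm g p‖ = 1 := by
  have h : g (hat p) ≠ 0 := by
    intro h0
    exact hat_ne_zero p (by simpa using h0)
  unfold nrm
  rw [norm_smul, norm_inv, norm_norm, inv_mul_cancel₀ (norm_ne_zero_iff.mpr h)]

/-- The affine subspace of a line. -/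
noncomputable def Ln.toAff (l : Ln) : AffineSubspace ℝ E3 := AffineSubspace.mk' l.p (Submodule.span ℝ {l.d})

theorem Ln.finrank_toAff (l : Ln) : Module.finrank ℝ l.toAff.direction = 1 := by
  unfold Ln.toAff
  rw [AffineSubspace.direction_mk']
  exact finrank_span_singleton l.hd

theorem Ln.mem_toAff (l : Ln) {x : E3} (hx : x ∈ l.pts) : x ∈ l.toAff := by
  obtain ⟨s, rfl⟩ := hx
  unfold Ln.toAff
  rw [AffineSubspace.mem_mk']
  rw [vsub_eq_sub, add_sub_cancel_left]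
  exact Submodule.smul_mem _ _ (Submodule.mem_span_singleton_self _)

/-- A uniform number of lines for compact convex sets with inner balls. -/
theorem outer_fat : ∃ N : ℕ, ∀ (ι : Type) [Finite ι] (C : ι → Set E3) (η : ℝ), 0 < η →
    (∀ i, Convex ℝ (C i)) → (∀ i, IsCompact (C i)) →
    (∀ i, ∀ z ∈ C i, ∃ q : E3, z ∈ Metric.closedBall q η ∧ Metric.closedBall q η ⊆ C i) →
    (∀ i j, (C i ∩ C j).Nonempty) →
    ∃ l : Fin N → Ln, ∀ i, ∃ j, ((l j).pts ∩ C i).Nonempty := by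
  obtain ⟨S, hS2, hS⟩ := net_planes delta0_pos
  refine ⟨S.card, ?_⟩
  intro ι _ C η hη hcv hcp hb hi
  obtain ⟨g, hg⟩ := core hη hcv hcp hb hi
  have hl : ∀ W : S, ∃ l : Ln, ∀ x y z : E3, (∃ a b c : ℝ, 0 < a ∧ 0 < b ∧ 0 < c ∧
      a • nrm g x + b • nrm g y + c • nrm g z ∈ (W : Submodule ℝ E4)) → Meets l x y z :=
    fun W => line_of g W (hS2 W W.2)
  choose L hL using hl
  refine ⟨fun j => L (S.equivFin.symm j), ?_⟩
  intro i
  obtain ⟨x, hx, y, hy, z, hz, hxyz⟩ := hg i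
  obtain ⟨W, hW, hc⟩ := hS _ _ _ (nrm_unit g x) (nrm_unit g y) (nrm_unit g z) hxyz
  obtain ⟨p, hp1, hp2⟩ := hL ⟨W, hW⟩ x y z hc
  refine ⟨S.equivFin ⟨W, hW⟩, p, by simpa using hp1, ?_⟩
  refine convexHull_min ?_ (hcv i) hp2
  intro q hq
  simp only [Set.mem_insert_iff, Set.mem_singleton_iff] at hq
  rcases hq with rfl | rfl | rfl <;> assumption

/-- A uniform number of lines for compact convex sets. -/
theorem outer_compact : ∃ N : ℕ, ∀ (ι : Type) [Finite ι] (K : ι → Set E3),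
    (∀ i, Convex ℝ (K i)) → (∀ i, IsCompact (K i)) →
    (∀ i j, (K i ∩ K j).Nonempty) →
    ∃ l : Fin N → Ln, ∀ i, ∃ j, ((l j).pts ∩ K i).Nonempty := by
  obtain ⟨N, hN⟩ := outer_fat
  refine ⟨N, ?_⟩
  intro ι _ K hcv hcp hi
  refine lim_lines hcp ?_
  intro η hη
  have hb : ∀ i, ∀ z ∈ Metric.cthickening η (K i), ∃ q : E3, z ∈ Metric.closedBall q η ∧
      Metric.closedBall q η ⊆ Metric.cthickening η (K i) := by
    intro i z hz
    rw [(hcp i).cthickening_eq_biUnion_closedBall hη.le] at hz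
    simp only [Set.mem_iUnion] at hz
    obtain ⟨q, hq, hzq⟩ := hz
    exact ⟨q, hzq, Metric.closedBall_subset_cthickening hq η⟩
  have hi' : ∀ i j, (Metric.cthickening η (K i) ∩ Metric.cthickening η (K j)).Nonempty := by
    intro i j
    obtain ⟨x, hx⟩ := hi i j
    exact ⟨x, Metric.self_subset_cthickening _ hx.1, Metric.self_subset_cthickening _ hx.2⟩
  obtain ⟨l, hl⟩ := hN ι (fun i => Metric.cthickening η (K i)) η hη
    (fun i => (hcv i).cthickening η) (fun i => (hcp i).cthickening) hb hi'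
  refine ⟨l, fun i => ?_⟩
  obtain ⟨j, x, hx1, hx2⟩ := hl i
  have hx2' : x ∈ Metric.cthickening η (K i) := hx2
  rw [(hcp i).cthickening_eq_biUnion_closedBall hη.le] at hx2'
  simp only [Set.mem_iUnion, Metric.mem_closedBall] at hx2'
  obtain ⟨y, hy, hxy⟩ := hx2'
  exact ⟨j, x, hx1, y, hy, hxy⟩

/-- The theorem. -/
theorem outer : ∃ N : ℕ, ∀ F : Set (Set E3), F.Finite →
    (∀ K ∈ F, Convex ℝ K) → (∀ K ∈ F, ∀ L ∈ F, (K ∩ L).Nonempty) →
    ∃ X : Finset (AffineSubspace ℝ E3), X.card ≤ N ∧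
      (∀ l ∈ X, Module.finrank ℝ l.direction = 1) ∧
      ∀ K ∈ F, ∃ l ∈ X, ((l : Set E3) ∩ K).Nonempty := by
  classical
  obtain ⟨N, hN⟩ := outer_compact
  refine ⟨N, ?_⟩
  intro F hF hcv hi
  have : Finite F := hF
  have hp : ∀ K L : F, ∃ p : E3, p ∈ (K : Set E3) ∩ (L : Set E3) := fun K L => hi K K.2 L L.2
  choose p hp using hp
  have hi' : ∀ K L : F, ((convexHull ℝ (Set.range (p K) ∪ Set.range (fun L => p L K))) ∩
      (convexHull ℝ (Set.range (p L) ∪ Set.range (fun K => p K L)))).Nonempty := by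
    intro K L
    exact ⟨p K L, subset_convexHull ℝ _ (Or.inl ⟨L, rfl⟩), subset_convexHull ℝ _ (Or.inr ⟨K, rfl⟩)⟩
  obtain ⟨l, hl⟩ := hN F (fun K => convexHull ℝ (Set.range (p K) ∪ Set.range (fun L => p L K)))
    (fun K => convex_convexHull ℝ _)
    (fun K => Set.Finite.isCompact_convexHull (𝕜 := ℝ) ((Set.finite_range _).union (Set.finite_range _))) hi'
  refine ⟨Finset.univ.image (fun j => (l j).toAff), ?_, ?_, ?_⟩
  · refine Finset.card_image_le.trans ?_
    simp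
  · intro a ha
    obtain ⟨j, -, rfl⟩ := Finset.mem_image.mp ha
    exact Ln.finrank_toAff _
  · intro K hK
    obtain ⟨j, x, hx1, hx2⟩ := hl ⟨K, hK⟩
    refine ⟨(l j).toAff, Finset.mem_image_of_mem _ (Finset.mem_univ j), x, Ln.mem_toAff _ hx1, ?_⟩
    refine convexHull_min ?_ (hcv K hK) hx2
    rintro q (⟨L, rfl⟩ | ⟨L, rfl⟩)
    · exact (hp ⟨K, hK⟩ L).1
    · exact (hp L ⟨K, hK⟩).2

end LT93
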