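import Pool.Agent.LT93.Defs

/-!
# [RetB] Lagrange interpolation of `t ↦ det (1 + t A)`

`t ↦ det (1 + t • A)` is a polynomial of degree `≤ n` in `t` (`Polynomial.natDegree_det_X_add_C_le`, write `A` as a matrix,
`LinearMap.det_toMatrix`, evaluation of the polynomial determinant at `t` by `Polynomial.eval_det` or `RingHom.map_det`).
Choose the nodes `s k = (k + 1) * δ / (n + 2)`, `k : Fin (n + 1)`, distinct points of `(0, δ)`, and let
`c k = (Lagrange.basis univ s k).eval 1`.  Then `q.eval 1 = ∑ k, c k * q.eval (s k)` for every polynomial `q` of degree `≤ n`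
(`Lagrange.eq_interpolate...`), in particular for `q = 1`: `∑ c k = 1`.
-/

namespace LT93

open Polynomial in
theorem retB_poly {n : ℕ} (M : Matrix (Fin n) (Fin n) ℝ) :
    ∃ q : ℝ[X], q.degree < ((n + 1 : ℕ) : WithBot ℕ) ∧ ∀ t : ℝ, q.eval t = (1 + t • M).det := by
  refine ⟨Matrix.det ((X : ℝ[X]) • M.map C + (1 : Matrix (Fin n) (Fin n) ℝ).map C), ?_, ?_⟩
  · have h := natDegree_det_X_add_C_le M (1 : Matrix (Fin n) (Fin n) ℝ)
    rw [Fintype.card_fin] at h
    have h1 := degree_le_natDegree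
      (p := Matrix.det ((X : ℝ[X]) • M.map C + (1 : Matrix (Fin n) (Fin n) ℝ).map C))
    exact lt_of_le_of_lt h1 (by exact_mod_cast Nat.lt_succ_of_le h)
  · intro t
    rw [← coe_evalRingHom, RingHom.map_det]
    congr 1
    ext i j
    by_cases hij : i = j
    · subst hij
      simp
      ring
    · simp [hij]
      ring

theorem retB_det {n : ℕ} (A : EuclideanSpace ℝ (Fin n) →L[ℝ] EuclideanSpace ℝ (Fin n)) (t : ℝ) :
    (ContinuousLinearMap.id ℝ _ + t • A).det =
      (1 + t • LinearMap.toMatrix (EuclideanSpace.basisFun (Fin n) ℝ).toBasis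
        (EuclideanSpace.basisFun (Fin n) ℝ).toBasis
        (A : EuclideanSpace ℝ (Fin n) →ₗ[ℝ] EuclideanSpace ℝ (Fin n))).det := by
  rw [ContinuousLinearMap.det, ← LinearMap.det_toMatrix (EuclideanSpace.basisFun (Fin n) ℝ).toBasis]
  congr 1
  have h : ((ContinuousLinearMap.id ℝ (EuclideanSpace ℝ (Fin n)) + t • A :
      EuclideanSpace ℝ (Fin n) →L[ℝ] EuclideanSpace ℝ (Fin n)) :
      EuclideanSpace ℝ (Fin n) →ₗ[ℝ] EuclideanSpace ℝ (Fin n)) =
      LinearMap.id + t • (A : EuclideanSpace ℝ (Fin n) →ₗ[ℝ] EuclideanSpace ℝ (Fin n)) := by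
    ext; simp
  rw [h, map_add, map_smul, LinearMap.toMatrix_id]

theorem retB {n : ℕ} {δ : ℝ} (hδ : 0 < δ) :
    ∃ s c : Fin (n + 1) → ℝ, (∀ k, 0 < s k ∧ s k < δ) ∧ ∑ k, c k = 1 ∧
      ∀ A : EuclideanSpace ℝ (Fin n) →L[ℝ] EuclideanSpace ℝ (Fin n),
        (ContinuousLinearMap.id ℝ _ + A).det =
          ∑ k, c k * (ContinuousLinearMap.id ℝ _ + s k • A).det := by
  set s : Fin (n + 1) → ℝ := fun k => ((k : ℕ) + 1) * δ / (n + 2) with hs
  have hinj : Set.InjOn s (Finset.univ : Finset (Fin (n + 1))) := by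
    intro a _ b _ hab
    simp only [hs] at hab
    have h2 : (0 : ℝ) < n + 2 := by positivity
    rw [div_left_inj' h2.ne'] at hab
    have h3 := mul_right_cancel₀ hδ.ne' hab
    have h4 : ((a : ℕ) : ℝ) = (b : ℕ) := by linarith
    exact Fin.ext (by exact_mod_cast h4)
  have key : ∀ q : Polynomial ℝ, q.degree < ((n + 1 : ℕ) : WithBot ℕ) →
      q.eval 1 = ∑ k, (Lagrange.basis Finset.univ s k).eval 1 * q.eval (s k) := by
    intro q hq
    have h := Lagrange.eq_interpolate (s := (Finset.univ : Finset (Fin (n + 1)))) (v := s) hinj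
      (f := q) (by simpa using hq)
    have h1 := congrArg (Polynomial.eval 1) h
    rw [Lagrange.interpolate_apply, Polynomial.eval_finsetSum] at h1
    rw [h1]
    refine Finset.sum_congr rfl fun k _ => ?_
    rw [Polynomial.eval_mul, Polynomial.eval_C, mul_comm]
  refine ⟨s, fun k => (Lagrange.basis Finset.univ s k).eval 1, ?_, ?_, ?_⟩
  · intro k
    have h2 : (0 : ℝ) < n + 2 := by positivity
    refine ⟨by simp only [hs]; positivity, ?_⟩
    simp only [hs]
    rw [div_lt_iff₀ h2]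
    have h3 : ((k : ℕ) : ℝ) ≤ n := by exact_mod_cast Nat.lt_succ_iff.mp k.2
    nlinarith
  · have h := key 1 (by
      rw [Polynomial.degree_one]
      exact_mod_cast Nat.succ_pos n)
    simpa using h.symm
  · intro A
    obtain ⟨q, hq, hqe⟩ := retB_poly (LinearMap.toMatrix (EuclideanSpace.basisFun (Fin n) ℝ).toBasis
        (EuclideanSpace.basisFun (Fin n) ℝ).toBasis
        (A : EuclideanSpace ℝ (Fin n) →ₗ[ℝ] EuclideanSpace ℝ (Fin n)))
    have h1 := retB_det A 1
    rw [one_smul] at h1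
    rw [h1, ← hqe 1, key q hq]
    refine Finset.sum_congr rfl fun k _ => ?_
    rw [retB_det A (s k), hqe]

end LT93
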