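import Pool.Agent.LT93.RetA
import Pool.Agent.LT93.RetB

/-!
# [Ret] There is no `C¹` retraction of the ball onto the sphere

Suppose `f` is one.  For `t = s k` (nodes of `retB` with `δ = t₀` of `retA`) the change of variables formula
(`MeasureTheory.integral_image_eq_integral_abs_det_fderiv_smul` or the `lintegral` version; the map
`x ↦ x + t • (f x - x)` has derivative `id + t • (fderiv f x - id)` on the open ball, injective, image the ball, determinant
positive) gives `∫_{ball} det (id + s k • (fderiv f x - id)) = vol ball`.  All integrands are continuous and bounded on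
the ball (continuous on the compact closed ball), so integrable.  Multiply by `c k` and sum over `k`: by `retB` with
`A = fderiv f x - id`:  `∫_{ball} det (fderiv f x) = (∑ c k) * vol ball = vol ball > 0`.
But `det (fderiv f x) = 0` for every `x` in the open ball: near `x` one has `⟪f y, f y⟫ = 1`, so `⟪f x, fderiv f x v⟫ = 0` for all
`v`, so `f x ≠ 0` is orthogonal to the range of `fderiv f x`, which therefore is not surjective, so not bijective, det = 0.
-/

namespace LT93

open Metric MeasureTheory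

private theorem det_fderiv_zero {n : ℕ} {f : EuclideanSpace ℝ (Fin n) → EuclideanSpace ℝ (Fin n)}
    {x : EuclideanSpace ℝ (Fin n)} (hd : DifferentiableAt ℝ f x)
    (h1 : ∀ᶠ y in nhds x, ‖f y‖ = 1) : (fderiv ℝ f x).det = 0 := by
  by_contra hne
  have hx1 : ‖f x‖ = 1 := h1.self_of_nhds
  have hder : HasFDerivAt (fun y => inner ℝ (f y) (f y))
      ((fderivInnerCLM ℝ (f x, f x)).comp ((fderiv ℝ f x).prod (fderiv ℝ f x))) x :=
    hd.hasFDerivAt.inner ℝ hd.hasFDerivAt
  have hconst : HasFDerivAt (fun y => inner ℝ (f y) (f y))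
      (0 : EuclideanSpace ℝ (Fin n) →L[ℝ] ℝ) x := by
    have h0 : HasFDerivAt (fun _ : EuclideanSpace ℝ (Fin n) => (1 : ℝ))
      (0 : EuclideanSpace ℝ (Fin n) →L[ℝ] ℝ) x := hasFDerivAt_const _ _
    refine h0.congr_of_eventuallyEq ?_
    filter_upwards [h1] with y hy
    rw [real_inner_self_eq_norm_sq, hy]; norm_num
  have huniq := hder.unique hconst
  have hsurj : Function.Surjective (fderiv ℝ f x : EuclideanSpace ℝ (Fin n) →ₗ[ℝ] EuclideanSpace ℝ (Fin n)) := by
    have hu : IsUnit (LinearMap.det (fderiv ℝ f x : EuclideanSpace ℝ (Fin n) →ₗ[ℝ] EuclideanSpace ℝ (Fin n))) :=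
      isUnit_iff_ne_zero.mpr hne
    exact (LinearEquiv.ofIsUnitDet (v := (Pi.basisFun ℝ (Fin n)).map (EuclideanSpace.equiv (Fin n) ℝ).symm.toLinearEquiv)
      (v' := (Pi.basisFun ℝ (Fin n)).map (EuclideanSpace.equiv (Fin n) ℝ).symm.toLinearEquiv)
      (by rw [LinearMap.det_toMatrix]; exact hu)).surjective
  obtain ⟨v, hv⟩ := hsurj (f x)
  have := congrArg (fun L => L v) huniq
  have hv' : (fderiv ℝ f x) v = f x := hv
  simp only [ContinuousLinearMap.comp_apply, ContinuousLinearMap.prod_apply, hv', fderivInnerCLM_apply,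
    zero_apply, real_inner_self_eq_norm_sq, hx1] at this
  norm_num at this

theorem no_retraction {n : ℕ} (hn : 0 < n) {f : EuclideanSpace ℝ (Fin n) → EuclideanSpace ℝ (Fin n)}
    {U : Set (EuclideanSpace ℝ (Fin n))} (hU : IsOpen U) (hBU : closedBall 0 1 ⊆ U)
    (hf : ContDiffOn ℝ 1 f U) (h1 : ∀ x ∈ closedBall (0 : EuclideanSpace ℝ (Fin n)) 1, ‖f x‖ = 1)
    (h2 : ∀ x : EuclideanSpace ℝ (Fin n), ‖x‖ = 1 → f x = x) : False := by
  obtain ⟨t₀, ht₀, hA⟩ := retA hU hBU hf (fun x hx => (h1 x hx).le) h2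
  obtain ⟨s, c, hs, hc, hdet⟩ := retB (n := n) ht₀
  have hdiff : ∀ x ∈ ball (0 : EuclideanSpace ℝ (Fin n)) 1, DifferentiableAt ℝ f x := by
    intro x hx
    exact (hf.differentiableOn one_ne_zero).differentiableAt (hU.mem_nhds (hBU (ball_subset_closedBall hx)))
  have hfc : ContinuousOn (fun x => fderiv ℝ f x) (closedBall (0 : EuclideanSpace ℝ (Fin n)) 1) :=
    (hf.continuousOn_fderiv_of_isOpen hU le_rfl).mono hBU
  have hint : ∀ k, IntegrableOn (fun x => (ContinuousLinearMap.id ℝ _ +
        s k • (fderiv ℝ f x - ContinuousLinearMap.id ℝ _)).det) (ball (0 : EuclideanSpace ℝ (Fin n)) 1) := by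
    intro k
    have hcont : ContinuousOn (fun x => (ContinuousLinearMap.id ℝ _ +
        s k • (fderiv ℝ f x - ContinuousLinearMap.id ℝ _)).det) (closedBall (0 : EuclideanSpace ℝ (Fin n)) 1) :=
      ContinuousLinearMap.continuous_det.comp_continuousOn
        (continuousOn_const.add ((hfc.sub continuousOn_const).const_smul (s k)))
    exact (hcont.integrableOn_compact (isCompact_closedBall _ _)).mono_set ball_subset_closedBall
  have hvol : ∀ k, ∫ x in ball (0 : EuclideanSpace ℝ (Fin n)) 1, (ContinuousLinearMap.id ℝ _ +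
        s k • (fderiv ℝ f x - ContinuousLinearMap.id ℝ _)).det
      = ∫ x in ball (0 : EuclideanSpace ℝ (Fin n)) 1, (1 : ℝ) := by
    intro k
    obtain ⟨hinj, himg, hpos⟩ := hA (s k) (hs k).1.le (hs k).2
    have hder : ∀ x ∈ ball (0 : EuclideanSpace ℝ (Fin n)) 1,
        HasFDerivWithinAt (fun x => x + s k • (f x - x)) (ContinuousLinearMap.id ℝ _ +
        s k • (fderiv ℝ f x - ContinuousLinearMap.id ℝ _)) (ball (0 : EuclideanSpace ℝ (Fin n)) 1) x := by
      intro x hx
      have := ((hasFDerivAt_id x).add (((hdiff x hx).hasFDerivAt.sub (hasFDerivAt_id x)).const_smul (s k)))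
      exact this.hasFDerivWithinAt
    have key := integral_image_eq_integral_abs_det_fderiv_smul (μ := volume) measurableSet_ball hder hinj
      (fun _ => (1 : ℝ))
    rw [himg] at key
    rw [key]
    refine setIntegral_congr_fun measurableSet_ball fun x hx => ?_
    simp only [smul_eq_mul, mul_one]
    exact (abs_of_pos (hpos x hx)).symm
  have hzero : ∀ x ∈ ball (0 : EuclideanSpace ℝ (Fin n)) 1, (fderiv ℝ f x).det = 0 := by
    intro x hx
    refine det_fderiv_zero (hdiff x hx) ?_
    filter_upwards [isOpen_ball.mem_nhds hx] with y hy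
    exact h1 y (ball_subset_closedBall hy)
  have hsum : ∑ k, c k * ∫ x in ball (0 : EuclideanSpace ℝ (Fin n)) 1, (ContinuousLinearMap.id ℝ _ +
        s k • (fderiv ℝ f x - ContinuousLinearMap.id ℝ _)).det = 0 := by
    simp_rw [← integral_const_mul]
    rw [← integral_finsetSum _ (fun k _ => (hint k).const_mul (c k))]
    rw [← integral_zero (EuclideanSpace ℝ (Fin n)) ℝ]
    rw [show (∫ _ : EuclideanSpace ℝ (Fin n), (0 : ℝ)) = ∫ _ in ball (0 : EuclideanSpace ℝ (Fin n)) 1, (0 : ℝ) by simp]
    refine setIntegral_congr_fun measurableSet_ball fun x hx => ?_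
    have := hdet (fderiv ℝ f x - ContinuousLinearMap.id ℝ _)
    rw [add_sub_cancel, hzero x hx] at this
    exact this.symm
  simp_rw [hvol] at hsum
  rw [← Finset.sum_mul, hc, one_mul, setIntegral_const, smul_eq_mul, mul_one] at hsum
  have hpos : 0 < (volume : Measure (EuclideanSpace ℝ (Fin n))).real (ball 0 1) := by
    rw [measureReal_def]
    exact ENNReal.toReal_pos (isOpen_ball.measure_pos volume ⟨0, mem_ball_self one_pos⟩).ne'
      (measure_ball_lt_top).ne
  exact hpos.ne' hsum

end LT93
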