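import Pool.Agent.LT93.Defs

/-!
# [RetA2] `det (1 + A) > 0` and `1 + A` is invertible if `‖A‖ < 1`

For `s ∈ [0, 1]` the map `1 + s • A` is injective: `‖x + s • A x‖ ≥ (1 - ‖A‖) ‖x‖`, so its determinant is not zero
(`LinearMap.det` of an injective endomorphism of a finite dimensional space, `LinearMap.isUnit_det'` …).
`s ↦ det (1 + s • A)` is continuous (`ContinuousLinearMap.continuous_det`), has no zero on `[0, 1]` and is `1` at
`s = 0`; by the intermediate value theorem it is positive at `s = 1`.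
-/

namespace LT93

namespace RetA2Aux

theorem isUnit_smul {n : ℕ}
    (A : EuclideanSpace ℝ (Fin n) →L[ℝ] EuclideanSpace ℝ (Fin n)) (hA : ‖A‖ < 1) (s : ℝ)
    (h0 : 0 ≤ s) (h1 : s ≤ 1) :
    IsUnit (ContinuousLinearMap.id ℝ (EuclideanSpace ℝ (Fin n)) + s • A) := by
  have hn : ‖-(s • A)‖ < 1 := by
    rw [norm_neg, norm_smul, Real.norm_eq_abs, abs_of_nonneg h0]
    calc s * ‖A‖ ≤ 1 * ‖A‖ := mul_le_mul_of_nonneg_right h1 (norm_nonneg _)
      _ = ‖A‖ := one_mul _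
      _ < 1 := hA
  have hu := (Units.oneSub (-(s • A)) hn).isUnit
  rw [Units.val_oneSub, sub_neg_eq_add] at hu
  exact hu

theorem det_ne_zero {n : ℕ}
    (A : EuclideanSpace ℝ (Fin n) →L[ℝ] EuclideanSpace ℝ (Fin n)) (hA : IsUnit A) :
    A.det ≠ 0 := by
  obtain ⟨u, rfl⟩ := hA
  intro h0
  have h1 : ((u : EuclideanSpace ℝ (Fin n) →L[ℝ] EuclideanSpace ℝ (Fin n)) *
      ((u⁻¹ : (EuclideanSpace ℝ (Fin n) →L[ℝ] EuclideanSpace ℝ (Fin n))ˣ) :
        EuclideanSpace ℝ (Fin n) →L[ℝ] EuclideanSpace ℝ (Fin n))) = 1 := u.mul_inv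
  have h2 := congrArg (fun B : EuclideanSpace ℝ (Fin n) →L[ℝ] EuclideanSpace ℝ (Fin n) =>
    LinearMap.det (B : EuclideanSpace ℝ (Fin n) →ₗ[ℝ] EuclideanSpace ℝ (Fin n))) h1
  simp only [ContinuousLinearMap.toLinearMap_mul, map_mul, ContinuousLinearMap.toLinearMap_one,
    map_one] at h2
  have h3 : LinearMap.det ((u : EuclideanSpace ℝ (Fin n) →L[ℝ] EuclideanSpace ℝ (Fin n)) :
    EuclideanSpace ℝ (Fin n) →ₗ[ℝ] EuclideanSpace ℝ (Fin n)) = 0 := h0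
  rw [h3, zero_mul] at h2
  exact zero_ne_one h2

end RetA2Aux

theorem det_pos_of_norm_lt_one {n : ℕ}
    (A : EuclideanSpace ℝ (Fin n) →L[ℝ] EuclideanSpace ℝ (Fin n)) (hA : ‖A‖ < 1) :
    0 < (ContinuousLinearMap.id ℝ (EuclideanSpace ℝ (Fin n)) + A).det := by
  have hcont : Continuous (fun s : ℝ =>
      (ContinuousLinearMap.id ℝ (EuclideanSpace ℝ (Fin n)) + s • A).det) :=
    ContinuousLinearMap.continuous_det.comp (by fun_prop)
  by_contra hneg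
  push Not at hneg
  have h0 : (ContinuousLinearMap.id ℝ (EuclideanSpace ℝ (Fin n)) + (0 : ℝ) • A).det = 1 := by
    rw [zero_smul ℝ A, add_zero]
    exact LinearMap.det_id
  have h1 : (ContinuousLinearMap.id ℝ (EuclideanSpace ℝ (Fin n)) + (1 : ℝ) • A).det ≤ 0 := by
    rw [one_smul]; exact hneg
  obtain ⟨s, hs, hs0⟩ := intermediate_value_Icc' (zero_le_one' ℝ) hcont.continuousOn
    (show (0 : ℝ) ∈ Set.Icc _ _ from ⟨h1, by rw [h0]; exact zero_le_one⟩)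
  exact RetA2Aux.det_ne_zero _ (RetA2Aux.isUnit_smul A hA s hs.1 hs.2) hs0

theorem surjective_of_norm_lt_one {n : ℕ}
    (A : EuclideanSpace ℝ (Fin n) →L[ℝ] EuclideanSpace ℝ (Fin n)) (hA : ‖A‖ < 1) :
    Function.Surjective (ContinuousLinearMap.id ℝ (EuclideanSpace ℝ (Fin n)) + A) := by
  have hu := RetA2Aux.isUnit_smul A hA 1 zero_le_one le_rfl
  rw [one_smul] at hu
  obtain ⟨u, hu⟩ := hu
  intro y
  refine ⟨((u⁻¹ : (EuclideanSpace ℝ (Fin n) →L[ℝ] EuclideanSpace ℝ (Fin n))ˣ) :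
        EuclideanSpace ℝ (Fin n) →L[ℝ] EuclideanSpace ℝ (Fin n)) y, ?_⟩
  rw [← hu]
  have h1 : ((u : EuclideanSpace ℝ (Fin n) →L[ℝ] EuclideanSpace ℝ (Fin n)) *
      ((u⁻¹ : (EuclideanSpace ℝ (Fin n) →L[ℝ] EuclideanSpace ℝ (Fin n))ˣ) :
        EuclideanSpace ℝ (Fin n) →L[ℝ] EuclideanSpace ℝ (Fin n))) = 1 := u.mul_inv
  have h2 := DFunLike.congr_fun h1 y
  exact h2

end LT93
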