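import Pool.Agent.LT93.Defs

/-!
# [RetA3] A continuous map of the closed ball, open on the open ball, identity on the sphere, is onto

`G` is continuous on the closed unit ball `B`, maps the open ball into the open ball, is the identity on the sphere, and the image of
the open ball is open.  Then `G '' ball = ball`: `G '' ball` is open and nonempty.  It is relatively closed in `ball`:
`G '' B` is compact, so closed; if `y ∈ ball` is in the closure of `G '' ball`, then `y = G x` with `x ∈ B`; if `‖x‖ = 1` then
`y = G x = x` has norm `1`, contradiction; so `x ∈ ball`.  `ball` is preconnected (`(convex_ball 0 1).isPreconnected`),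
use `IsPreconnected.subset_of_closure_inter_subset`.
-/

namespace LT93

open Metric

theorem retA_onto {n : ℕ} {G : EuclideanSpace ℝ (Fin n) → EuclideanSpace ℝ (Fin n)}
    (hc : ContinuousOn G (closedBall 0 1)) (hm : Set.MapsTo G (ball 0 1) (ball 0 1))
    (hs : ∀ x : EuclideanSpace ℝ (Fin n), ‖x‖ = 1 → G x = x) (ho : IsOpen (G '' ball 0 1)) :
    G '' ball 0 1 = ball 0 1 := by
  apply Set.Subset.antisymm
  · rintro _ ⟨x, hx, rfl⟩
    exact hm hx
  · have hne : (ball (0 : EuclideanSpace ℝ (Fin n)) 1 ∩ G '' ball 0 1).Nonempty := by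
      have h0 : (0 : EuclideanSpace ℝ (Fin n)) ∈ ball (0 : EuclideanSpace ℝ (Fin n)) 1 :=
        mem_ball_self one_pos
      exact ⟨G 0, hm h0, 0, h0, rfl⟩
    refine IsPreconnected.subset_of_closure_inter_subset
      (convex_ball (0 : EuclideanSpace ℝ (Fin n)) 1).isPreconnected ho hne ?_
    rintro y ⟨hy1, hy2⟩
    have hcomp : IsCompact (G '' closedBall 0 1) :=
      (isCompact_closedBall (0 : EuclideanSpace ℝ (Fin n)) 1).image_of_continuousOn hc
    have hsub : closure (G '' ball 0 1) ⊆ G '' closedBall 0 1 :=
      closure_minimal (Set.image_mono ball_subset_closedBall) hcomp.isClosed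
    obtain ⟨x, hx, rfl⟩ := hsub hy1
    rw [mem_closedBall_zero_iff] at hx
    rcases lt_or_eq_of_le hx with h | h
    · exact ⟨x, by rwa [mem_ball_zero_iff], rfl⟩
    · rw [hs x h, mem_ball_zero_iff] at hy2
      linarith

end LT93
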