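import Pool.Agent.LT93.RetA1
import Pool.Agent.LT93.RetA2
import Pool.Agent.LT93.RetA3

/-!
# [RetA] The maps `x ↦ x + t (f x - x)`, `t` small, are bijections of the open unit ball

(Part of the Milnor-Rogers proof of the Brouwer theorem.)  `f` is `C¹` on an open set `U` containing the closed
unit ball `B`, `‖f x‖ ≤ 1` on `B` and `f x = x` on the sphere.  `C ≥ 1` from `retA_lip`; `g x = f x - x` is `C`-Lipschitz on `B`.
`t₀ = 1 / (2 * C)`; let `0 ≤ t < t₀`, `G x = x + t • g x`.

* injective on `B`: `‖G x - G y‖ ≥ ‖x - y‖ - t C ‖x - y‖`.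
* `‖t • (fderiv f x - id)‖ < 1`: `det_pos_of_norm_lt_one`, `surjective_of_norm_lt_one`.
* `G '' ball ⊆ ball`: `G x = (1 - t) • x + t • f x`, norm `≤ (1 - t) ‖x‖ + t < 1`.
* `G '' ball` is open: `G` has the strict derivative `id + t • (fderiv f x - id)`, surjective, at each `x ∈ ball`
  (`ContDiffAt.hasStrictFDerivAt`, `HasStrictFDerivAt.map_nhds_eq_of_surj`), so `G '' ball` is a neighbourhood of `G x`.
* `retA_onto`.
-/

namespace LT93

open Metric

theorem retA {n : ℕ} {f : EuclideanSpace ℝ (Fin n) → EuclideanSpace ℝ (Fin n)}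
    {U : Set (EuclideanSpace ℝ (Fin n))} (hU : IsOpen U) (hBU : closedBall 0 1 ⊆ U)
    (hf : ContDiffOn ℝ 1 f U) (h1 : ∀ x ∈ closedBall (0 : EuclideanSpace ℝ (Fin n)) 1, ‖f x‖ ≤ 1)
    (h2 : ∀ x : EuclideanSpace ℝ (Fin n), ‖x‖ = 1 → f x = x) :
    ∃ t₀ : ℝ, 0 < t₀ ∧ ∀ t : ℝ, 0 ≤ t → t < t₀ →
      Set.InjOn (fun x => x + t • (f x - x)) (ball 0 1) ∧
      (fun x => x + t • (f x - x)) '' ball 0 1 = ball 0 1 ∧
      (∀ x ∈ ball (0 : EuclideanSpace ℝ (Fin n)) 1, 0 < (ContinuousLinearMap.id ℝ _ +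
        t • (fderiv ℝ f x - ContinuousLinearMap.id ℝ _)).det) := by
  obtain ⟨C, hC1, hCd, hCl⟩ := retA_lip hU hBU hf
  have hC0 : 0 < C := by linarith
  refine ⟨1 / (2 * C), by positivity, fun t ht0 ht => ?_⟩
  have htC : t * C < 1 / 2 := by
    have := mul_lt_mul_of_pos_right ht hC0
    rw [show 1 / (2 * C) * C = 1 / 2 by field_simp] at this
    exact this
  have ht1 : t < 1 := by nlinarith
  have hnorm : ∀ x ∈ closedBall (0 : EuclideanSpace ℝ (Fin n)) 1,
      ‖t • (fderiv ℝ f x - ContinuousLinearMap.id ℝ _)‖ < 1 := by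
    intro x hx
    rw [norm_smul, Real.norm_of_nonneg ht0]
    calc t * ‖fderiv ℝ f x - ContinuousLinearMap.id ℝ _‖ ≤ t * C :=
          mul_le_mul_of_nonneg_left (hCd x hx) ht0
      _ < 1 := by linarith
  have hinj : Set.InjOn (fun x => x + t • (f x - x)) (closedBall 0 1) := by
    intro x hx y hy hxy
    have hxy' : x + t • (f x - x) = y + t • (f y - y) := hxy
    have e : x - y = -(t • ((f x - x) - (f y - y))) := by
      have h0 : x + t • (f x - x) - (y + t • (f y - y)) = 0 := by rw [hxy', sub_self]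
      have h3 : (x - y) + t • ((f x - x) - (f y - y)) = 0 := by
        rw [← h0]; module
      exact eq_neg_of_add_eq_zero_left h3
    have h4 : ‖x - y‖ ≤ t * C * ‖x - y‖ := by
      conv_lhs => rw [e]
      rw [norm_neg, norm_smul, Real.norm_of_nonneg ht0, mul_assoc]
      exact mul_le_mul_of_nonneg_left (hCl x hx y hy) ht0
    have h5 : ‖x - y‖ = 0 := by
      have := norm_nonneg (x - y)
      nlinarith
    exact sub_eq_zero.mp (norm_eq_zero.mp h5)
  have hcd : ∀ x ∈ closedBall (0 : EuclideanSpace ℝ (Fin n)) 1, ContDiffAt ℝ 1 f x := fun x hx =>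
    hf.contDiffAt (hU.mem_nhds (hBU hx))
  refine ⟨hinj.mono ball_subset_closedBall, ?_, fun x hx =>
    det_pos_of_norm_lt_one _ (hnorm x (ball_subset_closedBall hx))⟩
  refine retA_onto ?_ ?_ ?_ ?_
  · have hfc : ContinuousOn f (closedBall 0 1) := fun x hx =>
      (hcd x hx).continuousAt.continuousWithinAt
    exact continuousOn_id.add ((hfc.sub continuousOn_id).const_smul t)
  · intro x hx
    have hx' : ‖x‖ < 1 := by simpa using hx
    have e : x + t • (f x - x) = (1 - t) • x + t • f x := by module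
    show x + t • (f x - x) ∈ ball 0 1
    rw [mem_ball_zero_iff, e]
    calc ‖(1 - t) • x + t • f x‖ ≤ ‖(1 - t) • x‖ + ‖t • f x‖ := norm_add_le _ _
      _ = (1 - t) * ‖x‖ + t * ‖f x‖ := by
          rw [norm_smul, norm_smul, Real.norm_of_nonneg ht0,
            Real.norm_of_nonneg (by linarith : (0 : ℝ) ≤ 1 - t)]
      _ ≤ (1 - t) * ‖x‖ + t * 1 := by
          have := mul_le_mul_of_nonneg_left (h1 x (ball_subset_closedBall hx)) ht0
          linarith
      _ < 1 := by nlinarith
  · intro x hx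
    show x + t • (f x - x) = x
    rw [h2 x hx, sub_self, smul_zero, add_zero]
  · rw [isOpen_iff_mem_nhds]
    rintro _ ⟨x, hx, rfl⟩
    have hxc := ball_subset_closedBall hx
    have hd : HasStrictFDerivAt f (fderiv ℝ f x) x :=
      (hcd x hxc).hasStrictFDerivAt one_ne_zero
    have hG : HasStrictFDerivAt (fun x => x + t • (f x - x))
        (ContinuousLinearMap.id ℝ _ + t • (fderiv ℝ f x - ContinuousLinearMap.id ℝ _)) x :=
      (hasStrictFDerivAt_id x).add ((hd.sub (hasStrictFDerivAt_id x)).const_smul t)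
    have hs := surjective_of_norm_lt_one _ (hnorm x hxc)
    have hm := hG.map_nhds_eq_of_surj (LinearMap.range_eq_top.mpr hs)
    rw [← hm]
    exact Filter.image_mem_map (isOpen_ball.mem_nhds hx)

end LT93
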