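import Pool.Agent.LT93.Defs

/-!
# [RetA1] Lipschitz bound of `f - id` on the closed unit ball

`f` is `C¹` on an open set `U` containing the compact convex closed unit ball `B`.  `x ↦ fderiv ℝ f x - id` is continuous on `U`
(`ContDiffOn.continuousOn_fderiv_of_isOpen`), so its norm is bounded on `B` by some `C ≥ 1`; then
`Convex.norm_image_sub_le_of_norm_hasFDerivWithin_le` or `Convex.norm_image_sub_le_of_norm_fderiv_le` applied to `f - id` on `B`.
-/

namespace LT93

open Metric

theorem retA_lip {n : ℕ} {f : EuclideanSpace ℝ (Fin n) → EuclideanSpace ℝ (Fin n)}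
    {U : Set (EuclideanSpace ℝ (Fin n))} (hU : IsOpen U) (hBU : closedBall 0 1 ⊆ U)
    (hf : ContDiffOn ℝ 1 f U) :
    ∃ C : ℝ, 1 ≤ C ∧
      (∀ x ∈ closedBall (0 : EuclideanSpace ℝ (Fin n)) 1,
        ‖fderiv ℝ f x - ContinuousLinearMap.id ℝ _‖ ≤ C) ∧
      (∀ x ∈ closedBall (0 : EuclideanSpace ℝ (Fin n)) 1,
        ∀ y ∈ closedBall (0 : EuclideanSpace ℝ (Fin n)) 1,
          ‖(f x - x) - (f y - y)‖ ≤ C * ‖x - y‖) := by
  have hdiff : ∀ x ∈ closedBall (0 : EuclideanSpace ℝ (Fin n)) 1, DifferentiableAt ℝ f x := by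
    intro x hx
    exact ((hf.differentiableOn one_ne_zero) x (hBU hx)).differentiableAt (hU.mem_nhds (hBU hx))
  have hcont : ContinuousOn (fun x => ‖fderiv ℝ f x - ContinuousLinearMap.id ℝ _‖)
      (closedBall (0 : EuclideanSpace ℝ (Fin n)) 1) := by
    apply ContinuousOn.norm
    apply ContinuousOn.sub _ continuousOn_const
    exact (hf.continuousOn_fderiv_of_isOpen hU le_rfl).mono hBU
  obtain ⟨C, hC⟩ := (isCompact_closedBall (0 : EuclideanSpace ℝ (Fin n)) 1).exists_bound_of_continuousOn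
    hcont
  have hC' : ∀ x ∈ closedBall (0 : EuclideanSpace ℝ (Fin n)) 1,
      ‖fderiv ℝ f x - ContinuousLinearMap.id ℝ _‖ ≤ max C 1 := by
    intro x hx
    have h1 := hC x hx
    rw [norm_norm] at h1
    exact h1.trans (le_max_left _ _)
  refine ⟨max C 1, le_max_right _ _, hC', ?_⟩
  intro x hx y hy
  have h2 := (convex_closedBall (0 : EuclideanSpace ℝ (Fin n)) 1).norm_image_sub_le_of_norm_hasFDerivWithin_le
    (f := fun x => f x - x) (f' := fun x => fderiv ℝ f x - ContinuousLinearMap.id ℝ _) (C := max C 1)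
    (fun z hz => ((hdiff z hz).hasFDerivAt.sub (hasFDerivAt_id z)).hasFDerivWithinAt) hC' hy hx
  exact h2

end LT93
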